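import Mathlib

/-!
# Interface of the project RG (MP_a3a416_nt): indices of a general even order `d`

Project: for every even `d ≥ 4`, for almost all primes `p` (logarithmic density) with `(p - 1) / d`
odd fewer than half of the `φ(d)` indices of order `d` are irregular.
Only definitions and statements here, no proofs except `fin_chars`, `mem_Xd`.
-/

set_option autoImplicit false

namespace Pool.Agent.K1H76.RG

open Filter Finset Topology NumberField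

/-- there are finitely many Dirichlet characters modulo `p` (any `p`, also `p = 0`) -/
instance fin_chars (p : ℕ) : Finite (DirichletCharacter ℂ p) := by
  rcases Nat.eq_zero_or_pos p with h | h
  · subst h
    have : Finite (ZMod 0)ˣ := inferInstanceAs (Finite ℤˣ)
    exact inferInstance
  · have : NeZero p := ⟨h.ne'⟩
    exact inferInstance

/-- the Dirichlet characters modulo `p` of exact order `d` -/
noncomputable def Xd (d p : ℕ) : Finset (DirichletCharacter ℂ p) :=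
  (Set.toFinite {χ : DirichletCharacter ℂ p | orderOf χ = d}).toFinset

lemma mem_Xd {d p : ℕ} {χ : DirichletCharacter ℂ p} : χ ∈ Xd d p ↔ orderOf χ = d := by
  simp [Xd]

/-- all Dirichlet characters modulo `p` -/
noncomputable def Xall (p : ℕ) : Finset (DirichletCharacter ℂ p) :=
  (Set.toFinite (Set.univ : Set (DirichletCharacter ℂ p))).toFinset

lemma mem_Xall {p : ℕ} (χ : DirichletCharacter ℂ p) : χ ∈ Xall p := by
  simp [Xall]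

/-- the primes `p ≤ x` -/
def Pr (x : ℕ) : Finset ℕ := (range (x + 1)).filter Nat.Prime

open Classical in
/-- the `m` for which `B_{2m}` is an irregular index of order `d` modulo `p` -/
noncomputable def irr (d p : ℕ) : Finset ℕ :=
  (range p).filter fun m => 1 ≤ m ∧ 2 * m + 3 ≤ p ∧ Nat.gcd (2 * m - 1) (p - 1) = (p - 1) / d ∧
    (p : ℤ) ∣ (bernoulli (2 * m)).num

/-- the half sum of a character -/
noncomputable def hs {p : ℕ} (χ : DirichletCharacter ℂ p) : ℂ :=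
  ∑ a ∈ Icc 1 ((p - 1) / 2), χ (a : ZMod p)

/-- the number of solutions of `x ^ d = a` modulo `p` -/
noncomputable def rts (d a p : ℕ) : ℕ := Nat.card {x : ZMod p // x ^ d = (a : ZMod p)}

/-! ## The pieces -/

/-- **A1** (Landau): the Dedekind zeta function of a field of degree `n` satisfies
`(s - 1) ζ_E(s) ≤ C_n (1 + log |disc E|)^n` for `1 < s ≤ 2`. -/
def S_RES : Prop := ∀ n : ℕ, ∃ C : ℝ, 0 < C ∧ ∀ (E : Type) [Field E] [NumberField E],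
  Module.finrank ℚ E = n → ∀ s : ℝ, 1 < s → s ≤ 2 →
    Summable (fun I : {I : Ideal (𝓞 E) // I ≠ ⊥} => ((Ideal.absNorm I.1 : ℕ) : ℝ) ^ (-s)) ∧
    (s - 1) * ∑' I : {I : Ideal (𝓞 E) // I ≠ ⊥}, ((Ideal.absNorm I.1 : ℕ) : ℝ) ^ (-s) ≤
      C * (1 + Real.log |(discr E : ℝ)|) ^ n

/-- **A2**: primes of degree one of `ℚ((q₁ q₂^(d-1))^(1/d))`, uniformly in `q₁, q₂`. -/
def S_DEG1 : Prop := ∀ d : ℕ, 2 ≤ d → ∃ C : ℝ, 0 < C ∧ ∀ q₁ q₂ : ℕ, q₁.Prime → q₂.Prime → q₁ ≠ q₂ →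
  ∀ s : ℝ, 1 < s → s ≤ 2 → ∀ x : ℕ,
    ∑ p ∈ Pr x, (rts d (q₁ * q₂ ^ (d - 1)) p : ℝ) * (p : ℝ) ^ (-s) ≤
      Real.log (1 / (s - 1)) + C * (1 + Real.log (1 + Real.log (q₁ * q₂ : ℝ)))

open Classical in
/-- **A3**: natural density of the primes `p ≡ 1 (mod d)` modulo which `∏ q^(v q)` is an `e`-th
power. -/
def S_DEN : Prop := ∀ d e : ℕ, 1 ≤ d → e ∣ d → ∀ K : Finset ℕ, (∀ q ∈ K, q.Prime ∧ ¬ q ∣ d) →
  ∀ v : ℕ → ℕ, (∀ r : ℕ, r.Prime → r ∣ e → ∃ q ∈ K, ¬ r ∣ v q) →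
    Tendsto (fun x : ℕ => (#((Pr x).filter fun p => p % d = 1 % d ∧
      ∃ y : ZMod p, y ^ e = ((∏ q ∈ K, q ^ v q : ℕ) : ZMod p)) : ℝ) / (x / Real.log x))
      atTop (𝓝 (1 / (d.totient * e : ℝ)))

open Classical in
/-- **A4**: the values of the characters of order `d` at finitely many primes `q ∤ d` are
equidistributed, logarithmic density over the moduli, upper bound. -/
def S_PAT : Prop := ∀ d : ℕ, 2 ≤ d → ∀ ζ : ℂ, IsPrimitiveRoot ζ d →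
  ∀ K : Finset ℕ, (∀ q ∈ K, q.Prime ∧ ¬ q ∣ d) → ∀ v : ℕ → ℕ, ∀ ε : ℝ, 0 < ε → ∀ᶠ x : ℕ in atTop,
    ∑ p ∈ Pr x, (1 / (p : ℝ)) * (#((Xd d p).filter fun χ => ∀ q ∈ K, χ (q : ZMod p) = ζ ^ v q) : ℝ) ≤
      (1 / (d : ℝ) ^ #K + ε) * Real.log (Real.log x)

/-- **A5**: large sieve for sums over primes. -/
def S_LSP : Prop := ∃ A : ℝ, 1 ≤ A ∧ ∀ B : ℝ, A ≤ B → ∀ η : ℝ, 0 < η → ∀ᶠ x : ℕ in atTop,
  ∀ Y : ℕ, Real.log x ^ A ≤ Y → (Y : ℝ) ≤ Real.log x ^ B →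
    ∃ Exc : Finset ℕ, (#Exc : ℝ) ≤ (x : ℝ) ^ (3 / 4 : ℝ) ∧
      ∀ p : ℕ, p.Prime → p ≤ x → p ∉ Exc → ∀ χ : DirichletCharacter ℂ p, χ ≠ 1 →
        ‖∑ q ∈ (Ioc Y ⌊Real.exp (Real.log x ^ 6)⌋₊).filter Nat.Prime,
          χ (q : ZMod p) * (((q : ℝ) ^ (-(1 + 1 / Real.log x ^ 4)) : ℝ) : ℂ)‖ ≤ η

/-- **A6**: `L(1, χ)` is a short Euler product for almost all moduli. -/
def S_EUL : Prop := ∃ A : ℝ, 1 ≤ A ∧ ∀ B : ℝ, A ≤ B → ∀ η : ℝ, 0 < η → ∀ᶠ x : ℕ in atTop,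
  ∀ Y : ℕ, Real.log x ^ A ≤ Y → (Y : ℝ) ≤ Real.log x ^ B →
    ∃ Exc : Finset ℕ, (#Exc : ℝ) ≤ (x : ℝ) ^ (3 / 4 : ℝ) ∧
      ∀ p : ℕ, p.Prime → p ≤ x → p ∉ Exc → ∀ χ : DirichletCharacter ℂ p, χ ≠ 1 →
        ∀ [NeZero p], |Real.log ‖DirichletCharacter.LFunction χ 1‖ +
          ∑ q ∈ Pr Y, Real.log ‖1 - χ (q : ZMod p) / (q : ℂ)‖| ≤ η

/-- **A11**: size of `L(1, χ)` and of `L(σ, χ) - L(1, χ)` for prime moduli. -/
def S_LONE : Prop := ∃ C : ℝ, 0 < C ∧ ∀ (p : ℕ) [NeZero p], p.Prime → ∀ χ : DirichletCharacter ℂ p,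
  χ ≠ 1 → ‖DirichletCharacter.LFunction χ 1‖ ≤ C * Real.log p ∧
    ∀ σ : ℝ, 1 ≤ σ → σ ≤ 2 →
      ‖DirichletCharacter.LFunction χ (σ : ℂ) - DirichletCharacter.LFunction χ 1‖ ≤
        C * (σ - 1) * Real.log p ^ 2

/-- **A7**: the half sum of an odd character modulo a prime. -/
def S_HALF : Prop := ∀ (p : ℕ) [NeZero p], p.Prime → p ≠ 2 → ∀ χ : DirichletCharacter ℂ p, χ.Odd →
  Real.pi * ‖hs χ‖ = Real.sqrt p * ‖2 - χ 2‖ * ‖DirichletCharacter.LFunction χ 1‖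

/-- **A8**: the norm of the half sums of order `d` is divisible by `p` to the number of irregular
indices of order `d`. -/
def S_ALG : Prop := ∀ d p : ℕ, p.Prime → p ≠ 2 → d ∣ p - 1 → Odd ((p - 1) / d) →
  ∃ M : ℕ, 1 ≤ M ∧ ∏ χ ∈ Xd d p, ‖hs χ‖ = (M : ℝ) * (p : ℝ) ^ #(irr d p)

open Classical in
/-- **A9** (Littlewood-Offord): anti-concentration of `∏ f q (v q)`, `v` uniform in
`κ → Fin d`, if `f q 0` and `f q (d/2)` differ by a factor `≥ 1 + δ` for many `q`. -/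
def S_LO : Prop := ∀ d : ℕ, 0 < d → Even d → ∀ ε : ℝ, 0 < ε → ∃ K₀ : ℕ,
  ∀ (κ : Type) [Fintype κ] (T : Finset κ), K₀ ≤ #T → ∀ δ : ℝ, 0 < δ →
    ∀ f : κ → Fin d → ℝ, (∀ q i, 0 < f q i) →
      (∀ q ∈ T, ∀ i j : Fin d, (i : ℕ) = 0 → (j : ℕ) = d / 2 → (1 + δ) * f q j ≤ f q i) →
      ∀ a : ℝ, (#((Finset.univ : Finset (κ → Fin d)).filter fun v =>
        a ≤ ∏ q, f q (v q) ∧ ∏ q, f q (v q) < (1 + δ) * a) : ℝ) ≤ ε * (d : ℝ) ^ Fintype.card κ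

open Classical in
/-- **A10**: mean square of the middle range. -/
def S_MSQ : Prop := ∀ d : ℕ, 2 ≤ d → ∃ C : ℝ, 0 < C ∧ ∀ Q Y x : ℕ, d ≤ Q → Q ≤ Y → 3 ≤ x → 3 ≤ Y →
  ∑ p ∈ Pr x, (1 / (p : ℝ)) * ∑ χ ∈ (Xall p).filter (fun χ => χ ^ d = 1 ∧ χ ≠ 1),
      ‖∑ q ∈ (Ioc Q Y).filter Nat.Prime, χ (q : ZMod p) / (q : ℂ)‖ ^ 2 ≤
    C * (Real.log (Real.log x) / Q + (1 + Real.log (Real.log Y)) ^ 3 + 1)

end Pool.Agent.K1H76.RG
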