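import Pool.Agent.K1H76.RG.Stm

/-!
# The theta functions of a number field: interface for A1 (`S_RES`)
-/

set_option autoImplicit false

namespace Pool.Agent.K1H76.RG

open Filter Finset Topology NumberField MeasureTheory Set

/-- the Dedekind zeta function for real `s > 1` -/
noncomputable def ZK (K : Type) [Field K] [NumberField K] (s : ℝ) : ℝ :=
  ∑' I : {I : Ideal (𝓞 K) // I ≠ ⊥}, ((Ideal.absNorm I.1 : ℕ) : ℝ) ^ (-s)

/-- the real gamma factor `Γ_ℝ(s) = π^{-s/2} Γ(s/2)` -/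
noncomputable def gR (s : ℝ) : ℝ := Real.pi ^ (-s / 2) * Real.Gamma (s / 2)

/-- **A1a**: the (sum over the ideal classes of the) theta functions, integrated over the norm-one
surface.  `h + G(u)` and `h + G'(u)` are the theta functions of the classes and of the dual
classes. -/
def S_THETA : Prop := ∀ (K : Type) [Field K] [NumberField K],
  ∃ (C : ℝ) (h a b : ℕ) (G G' : ℝ → ℝ), 0 < C ∧ 1 ≤ h ∧ a + b = Module.finrank ℚ K ∧
    (∀ u, 0 < u → 0 ≤ G u ∧ 0 ≤ G' u) ∧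
    (∀ u, 0 < u → (h : ℝ) + G (1 / u) =
      u / Real.sqrt |(discr K : ℝ)| * ((h : ℝ) + G' (u / |(discr K : ℝ)|))) ∧
    (∀ s : ℝ, 1 < s → IntegrableOn (fun u => G u * u ^ (s - 1)) (Ioi 0) ∧
      ∫ u in Ioi 0, G u * u ^ (s - 1) = C * (gR s ^ a * gR (s + 1) ^ b * ZK K s)) ∧
    (∀ s : ℝ, 1 < s → IntegrableOn (fun u => G' u * u ^ (s - 1)) (Ioi 0) ∧
      ∫ u in Ioi 0, G' u * u ^ (s - 1) = C * (gR s ^ a * gR (s + 1) ^ b * ZK K s))

/-- **A1b**: trivial bound `ζ_K(s) ≤ (1 + 1/(s-1))^n`, with summability. -/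
def S_ZN : Prop := ∀ (K : Type) [Field K] [NumberField K] (s : ℝ), 1 < s →
  Summable (fun I : {I : Ideal (𝓞 K) // I ≠ ⊥} => ((Ideal.absNorm I.1 : ℕ) : ℝ) ^ (-s)) ∧
  ZK K s ≤ (1 + 1 / (s - 1)) ^ Module.finrank ℚ K

end Pool.Agent.K1H76.RG
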