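import Pool.Agent.K1H76.RG.Stm3
import Pool.Agent.K1H45.RG.Alg

/-! # Assembly 1: the orbit of the characters of order `d`, the product formula at bad primes -/

set_option autoImplicit false

namespace Pool.Agent.K1H76.RG

open Filter Finset Topology

/-- the exponents prime to `d` -/
def un (d : ℕ) : Finset ℕ := (range d).filter fun j => d.Coprime j

lemma card_un (d : ℕ) : #(un d) = d.totient := rfl

lemma card_Xd {d p : ℕ} (hp : p.Prime) (hdp : d ∣ p - 1) : #(Xd d p) = d.totient := by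
  classical
  have : Fact p.Prime := ⟨hp⟩
  have : NeZero p := ⟨hp.ne_zero⟩
  obtain ⟨e⟩ := MulChar.mulEquiv_units (ZMod p) ℂ
  have h1 := IsCyclic.card_orderOf_eq_totient (α := (ZMod p)ˣ) (d := d)
    (by rw [ZMod.card_units]; exact hdp)
  rw [← h1]
  refine Finset.card_bij (fun χ _ => e χ) ?_ ?_ ?_
  · intro χ hχ
    rw [Finset.mem_filter]
    refine ⟨Finset.mem_univ _, ?_⟩
    rw [MulEquiv.orderOf_eq]
    exact mem_Xd.mp hχ
  · intro χ _ χ' _ h
    exact e.injective h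
  · intro u hu
    rw [Finset.mem_filter] at hu
    refine ⟨e.symm u, mem_Xd.mpr ?_, by simp⟩
    rw [MulEquiv.orderOf_eq]
    exact hu.2

/-- sums over the orbit -/
lemma sum_orbit {d p : ℕ} (hp : p.Prime) (hdp : d ∣ p - 1)
    {χ₀ : DirichletCharacter ℂ p} (h0 : χ₀ ∈ Xd d p) (F : DirichletCharacter ℂ p → ℝ) :
    ∑ χ ∈ Xd d p, F χ = ∑ j ∈ un d, F (χ₀ ^ j) := by
  classical
  have ho := mem_Xd.mp h0
  have hinj : Set.InjOn (fun j => χ₀ ^ j) (un d : Set ℕ) := by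
    intro i hi j hj hij
    rw [Finset.mem_coe, un, Finset.mem_filter, Finset.mem_range] at hi hj
    have := pow_injOn_Iio_orderOf (x := χ₀) (by rw [ho]; exact hi.1) (by rw [ho]; exact hj.1) hij
    exact this
  have himg : (un d).image (fun j => χ₀ ^ j) = Xd d p := by
    apply Finset.eq_of_subset_of_card_le
    · intro χ hχ
      rw [Finset.mem_image] at hχ
      obtain ⟨j, hj, rfl⟩ := hχ
      rw [un, Finset.mem_filter] at hj
      rw [mem_Xd]
      rw [Nat.Coprime.orderOf_pow (by rw [ho]; exact hj.2), ho]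
    · rw [Finset.card_image_of_injOn hinj, card_Xd hp hdp, card_un]
  rw [← himg, Finset.sum_image hinj]

/-- the product formula at a bad prime, in logarithmic form -/
lemma bad_eq (hALG : S_ALG) (hHALF : S_HALF) {d p : ℕ} [NeZero p] (hp : p.Prime) (hd3 : 3 ≤ d)
    (hdp : d ∣ p - 1) (hodd : Odd ((p - 1) / d)) (hbad : d.totient ≤ 2 * #(irr d p)) :
    ∃ M : ℕ, 1 ≤ M ∧ ∑ χ ∈ Xd d p, (Real.log ‖2 - χ 2‖ +
      Real.log ‖DirichletCharacter.LFunction χ 1‖) = d.totient * Real.log Real.pi + Real.log M := by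
  have : Fact p.Prime := ⟨hp⟩
  have hp2 : p ≠ 2 := by
    intro h
    rw [h] at hdp
    have := Nat.le_of_dvd (by norm_num) hdp
    omega
  obtain ⟨M, hM, hprod⟩ := hALG d p hp hp2 hdp hodd
  obtain ⟨k, hk⟩ := Nat.totient_even (n := d) (by omega)
  have hk' : d.totient = 2 * k := by omega
  have hki : k ≤ #(irr d p) := by omega
  have hp0 : (0 : ℝ) < p := by exact_mod_cast hp.pos
  have h1 : ∀ χ ∈ Xd d p, Real.pi * ‖hs χ‖ =
      Real.sqrt p * (‖2 - χ 2‖ * ‖DirichletCharacter.LFunction χ 1‖) := by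
    intro χ hχ
    rw [hHALF p hp hp2 χ (K1H45.RG.char_odd hp2 hdp hodd χ (mem_Xd.mp hχ)), mul_assoc]
  have h2 := Finset.prod_congr rfl h1
  rw [Finset.prod_mul_distrib, Finset.prod_mul_distrib, Finset.prod_const, Finset.prod_const, hprod,
    card_Xd hp hdp] at h2
  have h3 : Real.sqrt p ^ d.totient = (p : ℝ) ^ k := by
    rw [hk', pow_mul, Real.sq_sqrt hp0.le]
  rw [h3] at h2
  have h4 : (p : ℝ) ^ #(irr d p) = (p : ℝ) ^ k * (p : ℝ) ^ (#(irr d p) - k) := by
    rw [← pow_add]; congr 1; omega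
  rw [h4] at h2
  have hpk : (p : ℝ) ^ k ≠ 0 := by positivity
  have h5 : ∏ χ ∈ Xd d p, (‖2 - χ 2‖ * ‖DirichletCharacter.LFunction χ 1‖) =
      Real.pi ^ d.totient * ((M * p ^ (#(irr d p) - k) : ℕ) : ℝ) := by
    have h6 : (p : ℝ) ^ k * ∏ χ ∈ Xd d p, (‖2 - χ 2‖ * ‖DirichletCharacter.LFunction χ 1‖) =
        (p : ℝ) ^ k * (Real.pi ^ d.totient * ((M * p ^ (#(irr d p) - k) : ℕ) : ℝ)) := by
      rw [← h2]
      push_cast
      ring
    exact mul_left_cancel₀ hpk h6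
  have hM' : 1 ≤ M * p ^ (#(irr d p) - k) := Nat.mul_pos hM (Nat.pow_pos hp.pos)
  have hM0 : (0 : ℝ) < ((M * p ^ (#(irr d p) - k) : ℕ) : ℝ) := by exact_mod_cast hM'
  refine ⟨M * p ^ (#(irr d p) - k), hM', ?_⟩
  have hpi := Real.pi_pos
  have hne : ∏ χ ∈ Xd d p, (‖2 - χ 2‖ * ‖DirichletCharacter.LFunction χ 1‖) ≠ 0 := by
    rw [h5]; positivity
  have h7 : ∀ χ ∈ Xd d p, ‖2 - χ 2‖ * ‖DirichletCharacter.LFunction χ 1‖ ≠ 0 :=
    Finset.prod_ne_zero_iff.mp hne
  have h8 := congrArg Real.log h5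
  rw [Real.log_prod h7, Real.log_mul (by positivity) hM0.ne', Real.log_pow] at h8
  rw [← h8]
  refine Finset.sum_congr rfl fun χ hχ => ?_
  rw [Real.log_mul (left_ne_zero_of_mul (h7 χ hχ)) (right_ne_zero_of_mul (h7 χ hχ))]

end Pool.Agent.K1H76.RG
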