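import Pool.Agent.K1H76.RG.Asm1

/-! # Assembly 2: the final argument -/

set_option autoImplicit false

namespace Pool.Agent.K1H76.RG

open Filter Finset Topology

/-- `∑_{j prime to d} log ‖1 - ζ^{ij}/q‖`, negated -/
noncomputable def lf (d : ℕ) (ζ : ℂ) (q i : ℕ) : ℝ :=
  -∑ j ∈ un d, Real.log ‖1 - (ζ ^ i) ^ j / (q : ℂ)‖

/-- `∑_{j prime to d} log ‖2 - ζ^{ij}‖` -/
noncomputable def g2 (d : ℕ) (ζ : ℂ) (i : ℕ) : ℝ := ∑ j ∈ un d, Real.log ‖2 - (ζ ^ i) ^ j‖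

lemma gap {d : ℕ} (hd : 3 ≤ d) (he : Even d) {ζ : ℂ} (hζ : IsPrimitiveRoot ζ d) {q : ℕ}
    (hq : q.Prime) {δ : ℝ} (hδ : δ ≤ 1 / q) :
    (1 + δ) * Real.exp (lf d ζ q (d / 2)) ≤ Real.exp (lf d ζ q 0) := by
  have hq2 : (2 : ℝ) ≤ q := by exact_mod_cast hq.two_le
  have hq0 : (0 : ℝ) < q := by linarith
  obtain ⟨h, hh⟩ := he
  have hd2 : d / 2 = h := by omega
  have hz : ζ ^ (d / 2) = -1 := by
    have h1 : (ζ ^ (d / 2)) ^ 2 = 1 := by
      rw [← pow_mul, hd2, show h * 2 = d by omega, hζ.pow_eq_one]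
    rcases sq_eq_one_iff.mp h1 with h2 | h2
    · exfalso
      have := hζ.pow_ne_one_of_pos_of_lt (by omega : d / 2 ≠ 0) (by omega)
      exact this h2
    · exact h2
  have hφ : 1 ≤ d.totient := Nat.totient_pos.mpr (by omega)
  have e1 : lf d ζ q (d / 2) = -(d.totient * Real.log (1 + 1 / q)) := by
    unfold lf
    rw [neg_inj]
    have h3 : ∀ j ∈ un d, Real.log ‖1 - (ζ ^ (d / 2)) ^ j / (q : ℂ)‖ = Real.log (1 + 1 / q) := by
      intro j hj
      rw [un, mem_filter] at hj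
      have hjo : Odd j := by
        rw [← Nat.not_even_iff_odd]
        intro hje
        have h4 : 2 ∣ Nat.gcd d j := Nat.dvd_gcd ⟨h, by omega⟩ hje.two_dvd
        rw [hj.2] at h4
        omega
      rw [hz, hjo.neg_one_pow]
      congr 1
      rw [show (1 : ℂ) - -1 / (q : ℂ) = ((1 + 1 / q : ℝ) : ℂ) by push_cast; ring, Complex.norm_real,
        Real.norm_of_nonneg (by positivity)]
    rw [Finset.sum_congr rfl h3, Finset.sum_const, card_un, nsmul_eq_mul]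
  have e2 : lf d ζ q 0 = -(d.totient * Real.log (1 - 1 / q)) := by
    unfold lf
    rw [neg_inj]
    have h3 : ∀ j ∈ un d, Real.log ‖1 - (ζ ^ 0) ^ j / (q : ℂ)‖ = Real.log (1 - 1 / q) := by
      intro j hj
      rw [pow_zero, one_pow]
      congr 1
      have h5 : (1 : ℝ) / q ≤ 1 := by rw [div_le_one hq0]; linarith
      rw [show (1 : ℂ) - 1 / (q : ℂ) = ((1 - 1 / q : ℝ) : ℂ) by push_cast; ring, Complex.norm_real,
        Real.norm_of_nonneg (by linarith)]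
    rw [Finset.sum_congr rfl h3, Finset.sum_const, card_un, nsmul_eq_mul]
  have hφ' : (1 : ℝ) ≤ d.totient := by exact_mod_cast hφ
  have h5 : (0 : ℝ) < 1 / q := by positivity
  have h6 : (1 : ℝ) / q ≤ 1 / 2 := one_div_le_one_div_of_le (by norm_num) hq2
  have h7 : Real.log (1 - 1 / q) ≤ 0 := Real.log_nonpos (by linarith) (by linarith)
  have h8 : 0 ≤ Real.log (1 + 1 / q) := Real.log_nonneg (by linarith)
  rw [e1, e2]
  calc (1 + δ) * Real.exp (-(d.totient * Real.log (1 + 1 / q))) ≤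
      (1 + 1 / q) * Real.exp (-(d.totient * Real.log (1 + 1 / q))) :=
        mul_le_mul_of_nonneg_right (by linarith) (Real.exp_pos _).le
    _ = Real.exp (Real.log (1 + 1 / q) - d.totient * Real.log (1 + 1 / q)) := by
        rw [sub_eq_add_neg, Real.exp_add, Real.exp_log (by linarith)]
    _ ≤ _ := by
        apply Real.exp_le_exp.mpr
        nlinarith

/-- the targets -/
noncomputable def tg (d : ℕ) (ζ : ℂ) (M : ℕ) (w : ℕ → ℕ) : ℝ :=
  d.totient * Real.log Real.pi + Real.log M - g2 d ζ (w 2) - ∑ q ∈ d.primeFactors, lf d ζ q (w q)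

lemma half_le {z : ℂ} {q : ℕ} (hq : 2 ≤ q) (hz : ‖z‖ ≤ 1) : 1 / 2 ≤ ‖1 - z / (q : ℂ)‖ := by
  have h2 : (2 : ℝ) ≤ q := by exact_mod_cast hq
  have h1 : ‖z / (q : ℂ)‖ ≤ 1 / 2 := by
    rw [norm_div, Complex.norm_natCast]
    calc ‖z‖ / q ≤ 1 / q := div_le_div_of_nonneg_right hz (by linarith)
      _ ≤ 1 / 2 := one_div_le_one_div_of_le (by norm_num) h2
  have h3 := norm_sub_norm_le (1 : ℂ) (z / (q : ℂ))
  rw [norm_one] at h3
  linarith

/-- the situation at a bad prime with small deviation -/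
lemma bad_pat (hALG : S_ALG) (hHALF : S_HALF) {d p Q : ℕ} [NeZero p] (hp : p.Prime) (hd3 : 3 ≤ d)
    (hdp : d ∣ p - 1) (hodd : Odd ((p - 1) / d)) (hbad : d.totient ≤ 2 * #(irr d p))
    (hQd : d ≤ Q) (hQp : Q < p) {ζ : ℂ} (hζ : IsPrimitiveRoot ζ d) {ρ : ℝ}
    (hdev : ∀ χ ∈ Xd d p, dev Q χ ≤ ρ) {Q₁ : ℕ} (hdev1 : ∀ χ ∈ Xd d p, dev Q₁ χ ≤ 1) :
    ∃ (M : ℕ) (V : ℕ → ℕ) (χ : DirichletCharacter ℂ p), 1 ≤ M ∧
      Real.log M ≤ d.totient * (Real.log 3 + (1 + #(Pr Q₁) * Real.log 2)) ∧ (∀ q, V q < d) ∧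
      χ ∈ Xd d p ∧ (∀ q ∈ Pr Q, χ (q : ZMod p) = ζ ^ V q) ∧
      |∑ q ∈ (Pr Q).filter (fun q => ¬ q ∣ d), lf d ζ q (V q) - tg d ζ M V| ≤ d.totient * ρ := by
  classical
  have : Fact p.Prime := ⟨hp⟩
  have hd0 : d ≠ 0 := by omega
  obtain ⟨M, hM, heq⟩ := bad_eq hALG hHALF hp hd3 hdp hodd hbad
  have hφ : 1 ≤ d.totient := Nat.totient_pos.mpr (by omega)
  obtain ⟨χ, hχ⟩ : (Xd d p).Nonempty := by
    rw [← Finset.card_pos, card_Xd hp hdp]; exact hφ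
  have hval : ∀ q, ∃ i, i < d ∧ (q ∈ Pr Q → χ (q : ZMod p) = ζ ^ i) := by
    intro q
    by_cases hq : q ∈ Pr Q
    · obtain ⟨hqQ, hq'⟩ := mem_Pr.mp hq
      have hu := unit_cast hp hq' (by omega)
      have h1 : χ (q : ZMod p) ^ d = 1 := by
        rw [← MulChar.pow_apply' χ hd0, ← mem_Xd.mp hχ, pow_orderOf_eq_one, MulChar.one_apply hu]
      have : NeZero d := ⟨hd0⟩
      obtain ⟨i, hi, hi'⟩ := hζ.eq_pow_of_pow_eq_one h1
      exact ⟨i, hi, fun _ => hi'.symm⟩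
    · exact ⟨0, by omega, fun h => absurd h hq⟩
  choose V hV1 hV2 using hval
  have h2Q : 2 ∈ Pr Q := mem_Pr.mpr ⟨by omega, Nat.prime_two⟩
  -- the sums over the orbit
  have hun : ∀ j ∈ un d, j ≠ 0 := by
    intro j hj h0
    rw [un, mem_filter, h0, Nat.coprime_zero_right] at hj
    omega
  have s1 : ∑ χ' ∈ Xd d p, Real.log ‖2 - χ' 2‖ = g2 d ζ (V 2) := by
    rw [sum_orbit hp hdp hχ]
    unfold g2
    refine Finset.sum_congr rfl fun j hj => ?_
    rw [MulChar.pow_apply' χ (hun j hj)]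
    have h3 := hV2 2 h2Q
    rw [Nat.cast_ofNat] at h3
    rw [h3]
  have s2 : ∀ q ∈ Pr Q, ∑ χ' ∈ Xd d p, Real.log ‖1 - χ' (q : ZMod p) / (q : ℂ)‖ =
      -lf d ζ q (V q) := by
    intro q hq
    rw [sum_orbit hp hdp hχ (fun χ' => Real.log ‖1 - χ' (q : ZMod p) / (q : ℂ)‖)]
    unfold lf
    rw [neg_neg]
    refine Finset.sum_congr rfl fun j hj => ?_
    rw [MulChar.pow_apply' χ (hun j hj), hV2 q hq]
  have s3 : |∑ χ' ∈ Xd d p, Real.log ‖DirichletCharacter.LFunction χ' 1‖ +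
      ∑ χ' ∈ Xd d p, ∑ q ∈ Pr Q, Real.log ‖1 - χ' (q : ZMod p) / (q : ℂ)‖| ≤ d.totient * ρ := by
    rw [← Finset.sum_add_distrib]
    refine (Finset.abs_sum_le_sum_abs _ _).trans ((Finset.sum_le_sum hdev).trans ?_)
    rw [Finset.sum_const, card_Xd hp hdp, nsmul_eq_mul]
  rw [Finset.sum_comm, Finset.sum_congr rfl s2] at s3
  have s4 : (Pr Q).filter (fun q => q ∣ d) = d.primeFactors := by
    ext q
    rw [mem_filter, mem_Pr, Nat.mem_primeFactors]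
    constructor
    · rintro ⟨⟨_, h1⟩, h2⟩
      exact ⟨h1, h2, hd0⟩
    · rintro ⟨h1, h2, _⟩
      exact ⟨⟨(Nat.le_of_dvd (by omega) h2).trans hQd, h1⟩, h2⟩
  have s5 := Finset.sum_filter_add_sum_filter_not (Pr Q) (fun q => q ∣ d)
    (fun q => lf d ζ q (V q))
  rw [s4] at s5
  rw [Finset.sum_add_distrib, s1] at heq
  have hL : ∑ χ' ∈ Xd d p, Real.log ‖DirichletCharacter.LFunction χ' 1‖ ≤
      d.totient * (1 + #(Pr Q₁) * Real.log 2) := by
    rw [← card_Xd hp hdp, ← nsmul_eq_mul]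
    refine Finset.sum_le_card_nsmul _ _ _ fun χ' hχ' => ?_
    have h1 := (abs_le.mp (hdev1 χ' hχ')).2
    have h2 : -(#(Pr Q₁) * Real.log 2) ≤
        ∑ q ∈ Pr Q₁, Real.log ‖1 - χ' (q : ZMod p) / (q : ℂ)‖ := by
      have h3 : ∑ q ∈ Pr Q₁, -Real.log 2 ≤
          ∑ q ∈ Pr Q₁, Real.log ‖1 - χ' (q : ZMod p) / (q : ℂ)‖ := by
        refine Finset.sum_le_sum fun q hq => ?_
        have h4 := half_le (mem_Pr.mp hq).2.two_le (norm_chi_le χ' (q : ZMod p))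
        have h5 := Real.log_le_log (by norm_num) h4
        rw [one_div, Real.log_inv] at h5
        exact h5
      rw [Finset.sum_const, nsmul_eq_mul] at h3
      linarith
    linarith
  have hg2 : g2 d ζ (V 2) ≤ d.totient * Real.log 3 := by
    unfold g2
    rw [← card_un, ← nsmul_eq_mul]
    refine Finset.sum_le_card_nsmul _ _ _ fun j hj => ?_
    have h1 : ‖ζ‖ = 1 := hζ.norm'_eq_one hd0
    have h2 : ‖(2 : ℂ) - (ζ ^ V 2) ^ j‖ ≤ 3 := by
      refine (norm_sub_le _ _).trans ?_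
      rw [norm_pow, norm_pow, h1, one_pow, one_pow]
      norm_num
    have h3 : 0 < ‖(2 : ℂ) - (ζ ^ V 2) ^ j‖ := by
      have h4 := norm_sub_norm_le (2 : ℂ) ((ζ ^ V 2) ^ j)
      rw [norm_pow, norm_pow, h1, one_pow, one_pow] at h4
      have : ‖(2 : ℂ)‖ = 2 := by norm_num
      linarith
    exact Real.log_le_log h3 h2
  refine ⟨M, V, χ, hM, ?_, hV1, hχ, hV2, ?_⟩
  · have hpi : 0 ≤ d.totient * Real.log Real.pi := by
      have : 0 ≤ Real.log Real.pi := Real.log_nonneg (by have := Real.pi_gt_three; linarith)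
      positivity
    rw [mul_add]
    linarith
  · unfold tg
    rw [abs_le] at s3 ⊢
    rw [Finset.sum_neg_distrib] at s3
    constructor <;> linarith [s3.1, s3.2]

end Pool.Agent.K1H76.RG
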