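import Pool.Agent.K1H76.RG.Asm2

/-! # Assembly 3: the theorem from the pieces -/

set_option autoImplicit false

namespace Pool.Agent.K1H76.RG

open Filter Finset Topology

/-- extension by zero of a function on a finset -/
def ev {d : ℕ} (S : Finset ℕ) (v : {q // q ∈ S} → Fin d) (q : ℕ) : ℕ :=
  if h : q ∈ S then (v ⟨q, h⟩ : ℕ) else 0

lemma ev_apply {d : ℕ} {S : Finset ℕ} (v : {q // q ∈ S} → Fin d) {q : ℕ} (h : q ∈ S) :
    ev S v q = v ⟨q, h⟩ := dif_pos h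

/-- the bad primes -/
def Bd' (d p : ℕ) : Prop := d ∣ p - 1 ∧ Odd ((p - 1) / d) ∧ d.totient ≤ 2 * #(irr d p)

lemma loglog_tendsto : Tendsto (fun x : ℕ => Real.log (Real.log x)) atTop atTop :=
  Real.tendsto_log_atTop.comp (Real.tendsto_log_atTop.comp tendsto_natCast_atTop_atTop)

lemma primes_gt (n k : ℕ) : ∃ T : Finset ℕ, #T = k ∧ ∀ q ∈ T, q.Prime ∧ n < q := by
  have h1 : {q : ℕ | q.Prime ∧ n < q}.Infinite := by
    rw [Set.infinite_iff_exists_gt]
    intro a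
    obtain ⟨q, hq, hq'⟩ := Nat.exists_infinite_primes (max a n + 1)
    exact ⟨q, ⟨hq', by omega⟩, by omega⟩
  obtain ⟨T, hT, hT'⟩ := h1.exists_subset_card_eq k
  exact ⟨T, hT', fun q hq => hT hq⟩

open Classical in
/-- the pattern sum of A4 -/
noncomputable def PS (d : ℕ) (ζ : ℂ) (K : Finset ℕ) (v : ℕ → ℕ) (p : ℕ) : ℝ :=
  (#((Xd d p).filter fun χ => ∀ q ∈ K, χ (q : ZMod p) = ζ ^ v q) : ℝ)

open Classical in
theorem main (hDEV : S_DEV) (hHALF : S_HALF) (hALG : S_ALG) (hLO : S_LO) (hPAT : S_PAT)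
    (d : ℕ) (hd : 3 ≤ d) (he : Even d) (ε : ℝ) (hε : 0 < ε) :
    ∀ᶠ x : ℕ in atTop, ∑ p ∈ (Pr x).filter (fun p => Bd' d p), 1 / (p : ℝ) ≤
      ε * Real.log (Real.log x) := by
  have hd0 : d ≠ 0 := by omega
  have hφ : 1 ≤ d.totient := Nat.totient_pos.mpr (by omega)
  have hφ' : (1 : ℝ) ≤ d.totient := by exact_mod_cast hφ
  have hdR : (0 : ℝ) < d := by exact_mod_cast (by omega : 0 < d)
  set ζ : ℂ := Complex.exp (2 * Real.pi * Complex.I / d) with hζd
  have hζ : IsPrimitiveRoot ζ d := Complex.isPrimitiveRoot_exp d hd0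
  obtain ⟨Q₁, hQ₁⟩ := hDEV d (by omega) 1 one_pos (ε / 8) (by positivity)
  have E1 := hQ₁ Q₁ le_rfl
  set B : ℝ := d.totient * (Real.log 3 + (1 + #(Pr Q₁) * Real.log 2)) with hB
  set M₀ : ℕ := ⌈Real.exp B⌉₊ with hM₀
  set W := {q // q ∈ d.primeFactors} → Fin d with hW
  set N₀ : ℝ := M₀ * Fintype.card W with hN₀
  have hN₀0 : 0 ≤ N₀ := by positivity
  set ε' : ℝ := ε / (8 * (N₀ + 1)) with hε'
  have hε'0 : 0 < ε' := by positivity
  obtain ⟨K₀, hK₀⟩ := hLO d (by omega) he ε' hε'0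
  obtain ⟨T, hTc, hT⟩ := primes_gt d K₀
  set mT : ℕ := T.sup id + 1 with hmT
  have hmT0 : (0 : ℝ) < mT := by rw [hmT]; positivity
  have hTle : ∀ q ∈ T, q ≤ mT := fun q hq => (Finset.le_sup (f := id) hq).trans (by omega)
  set δ : ℝ := 1 / mT with hδ
  have hδ0 : 0 < δ := by positivity
  have hlogδ : 0 < Real.log (1 + δ) := Real.log_pos (by linarith)
  set ρ : ℝ := Real.log (1 + δ) / (4 * d.totient) with hρ
  have hρ0 : 0 < ρ := by positivity
  have hρ' : d.totient * ρ = Real.log (1 + δ) / 4 := by rw [hρ]; field_simp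
  obtain ⟨Q₂, hQ₂⟩ := hDEV d (by omega) ρ hρ0 (ε / 8) (by positivity)
  set Q : ℕ := max (max Q₂ d) mT with hQ
  have E2 := hQ₂ Q ((le_max_left _ _).trans (le_max_left _ _))
  have hQd : d ≤ Q := (le_max_right _ _).trans (le_max_left _ _)
  have hQT : mT ≤ Q := le_max_right _ _
  set K : Finset ℕ := (Pr Q).filter (fun q => ¬ q ∣ d) with hK
  have hKp : ∀ q ∈ K, q.Prime ∧ ¬ q ∣ d := by
    intro q hq
    rw [hK, mem_filter, mem_Pr] at hq
    exact ⟨hq.1.2, hq.2⟩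
  have hTK : T ⊆ K := by
    intro q hq
    rw [hK, mem_filter, mem_Pr]
    refine ⟨⟨(hTle q hq).trans hQT, (hT q hq).1⟩, fun h => ?_⟩
    have := Nat.le_of_dvd (by omega) h
    have := (hT q hq).2
    omega
  set κ := {q // q ∈ K} with hκ
  have hκc : Fintype.card κ = #K := Fintype.card_coe K
  set f : κ → Fin d → ℝ := fun q i => Real.exp (lf d ζ q.1 i) with hf
  set T' : Finset κ := Finset.univ.filter (fun q => q.1 ∈ T) with hT'
  have hT'c : K₀ ≤ #T' := by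
    rw [← hTc]
    have h1 : T ⊆ T'.image Subtype.val := by
      intro q hq
      rw [Finset.mem_image]
      exact ⟨⟨q, hTK hq⟩, by rw [hT', Finset.mem_filter]; exact ⟨Finset.mem_univ _, hq⟩, rfl⟩
    exact (Finset.card_le_card h1).trans Finset.card_image_le
  have hf0 : ∀ q i, 0 < f q i := fun q i => Real.exp_pos _
  have hgap : ∀ q ∈ T', ∀ i j : Fin d, (i : ℕ) = 0 → (j : ℕ) = d / 2 →
      (1 + δ) * f q j ≤ f q i := by
    intro q hq i j hi hj
    rw [hT', Finset.mem_filter] at hq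
    simp only [hf]
    rw [hi, hj]
    refine gap hd he hζ (hT q.1 hq.2).1 ?_
    rw [hδ]
    refine one_div_le_one_div_of_le ?_ (by exact_mod_cast hTle q.1 hq.2)
    exact_mod_cast (hT q.1 hq.2).1.pos
  set aa : ℕ → W → ℝ := fun M w => Real.exp (tg d ζ M (ev d.primeFactors w) - d.totient * ρ)
    with haa
  set BS : ℕ → W → Finset (κ → Fin d) := fun M w => Finset.univ.filter fun v =>
    aa M w ≤ ∏ q, f q (v q) ∧ ∏ q, f q (v q) < (1 + δ) * aa M w with hBS
  have hBSc : ∀ M w, (#(BS M w) : ℝ) ≤ ε' * (d : ℝ) ^ #K := by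
    intro M w
    have h1 := hK₀ κ T' hT'c δ hδ0 f hf0 hgap (aa M w)
    rw [hκc] at h1
    refine le_trans (le_of_eq (congrArg (fun n : ℕ => (n : ℝ)) (congrArg Finset.card
      (Finset.ext fun v => ?_)))) h1
    simp only [hBS, Finset.mem_filter, Finset.mem_univ, true_and]
  set ε'' : ℝ := 1 / (d : ℝ) ^ #K with hε''
  have hdK : (0 : ℝ) < (d : ℝ) ^ #K := by positivity
  have hε''0 : 0 < ε'' := by positivity
  have E3 : ∀ᶠ x : ℕ in atTop, ∀ v : κ → Fin d,
      ∑ p ∈ Pr x, (1 / (p : ℝ)) * PS d ζ K (ev K v) p ≤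
        (1 / (d : ℝ) ^ #K + ε'') * Real.log (Real.log x) := by
    rw [Filter.eventually_all]
    intro v
    exact hPAT d (by omega) ζ hζ K hKp (ev K v) ε'' hε''0
  have E4 : ∀ᶠ x : ℕ in atTop, ∑ p ∈ Pr Q, 1 / (p : ℝ) ≤ ε / 8 * Real.log (Real.log x) := by
    have h1 := (loglog_tendsto.const_mul_atTop (show (0 : ℝ) < ε / 8 by positivity))
    exact h1.eventually_ge_atTop _
  have E5 : ∀ᶠ x : ℕ in atTop, 0 ≤ Real.log (Real.log x) := loglog_tendsto.eventually_ge_atTop 0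
  filter_upwards [E1, E2, E3, E4, E5] with x e1 e2 e3 e4 e5
  set LL : ℝ := Real.log (Real.log x) with hLL
  set b1 : ℕ → Prop := fun p => ∃ (_ : NeZero p) (χ : DirichletCharacter ℂ p), χ ∈ Xd d p ∧
    1 < dev Q₁ χ with hb1
  set b2 : ℕ → Prop := fun p => ∃ (_ : NeZero p) (χ : DirichletCharacter ℂ p), χ ∈ Xd d p ∧
    ρ < dev Q χ with hb2
  have hPS0 : ∀ v p, 0 ≤ PS d ζ K v p := fun v p => Nat.cast_nonneg _
  -- the pointwise inequality
  have hpt : ∀ p ∈ Pr x, (if Bd' d p then 1 / (p : ℝ) else 0) ≤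
      (if p ≤ Q then 1 / (p : ℝ) else 0) + (if b1 p then 1 / (p : ℝ) else 0) +
        (if b2 p then 1 / (p : ℝ) else 0) +
        ∑ M ∈ Finset.Icc 1 M₀, ∑ w : W, ∑ v ∈ BS M w, (1 / (p : ℝ)) * PS d ζ K (ev K v) p := by
    intro p hp
    obtain ⟨hpx, hp'⟩ := mem_Pr.mp hp
    have hp0 : (0 : ℝ) ≤ 1 / (p : ℝ) := by positivity
    have n1 : (0 : ℝ) ≤ if p ≤ Q then 1 / (p : ℝ) else 0 := ite_nonneg hp0 le_rfl
    have n2 : (0 : ℝ) ≤ if b1 p then 1 / (p : ℝ) else 0 := ite_nonneg hp0 le_rfl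
    have n3 : (0 : ℝ) ≤ if b2 p then 1 / (p : ℝ) else 0 := ite_nonneg hp0 le_rfl
    have n4 : 0 ≤ ∑ M ∈ Finset.Icc 1 M₀, ∑ w : W, ∑ v ∈ BS M w,
        (1 / (p : ℝ)) * PS d ζ K (ev K v) p :=
      Finset.sum_nonneg fun M _ => Finset.sum_nonneg fun w _ => Finset.sum_nonneg fun v _ =>
        mul_nonneg hp0 (hPS0 _ _)
    by_cases hbad : Bd' d p
    swap
    · rw [if_neg hbad]; positivity
    rw [if_pos hbad]
    by_cases c1 : p ≤ Q
    · rw [if_pos c1]; linarith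
    by_cases c2 : b1 p
    · rw [if_pos c2]; linarith
    by_cases c3 : b2 p
    · rw [if_pos c3]; linarith
    have hnz : NeZero p := ⟨hp'.ne_zero⟩
    have d1 : ∀ χ ∈ Xd d p, dev Q₁ χ ≤ 1 := by
      intro χ hχ
      by_contra hc
      exact c2 ⟨hnz, χ, hχ, not_le.mp hc⟩
    have d2 : ∀ χ ∈ Xd d p, dev Q χ ≤ ρ := by
      intro χ hχ
      by_contra hc
      exact c3 ⟨hnz, χ, hχ, not_le.mp hc⟩
    obtain ⟨M, V, χ, hM1, hM2, hV, hχ, hχV, hest⟩ := bad_pat hALG hHALF hp' hd hbad.1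
      hbad.2.1 hbad.2.2 hQd (by omega) hζ d2 d1
    have hMM : M ∈ Finset.Icc 1 M₀ := by
      rw [Finset.mem_Icc]
      refine ⟨hM1, ?_⟩
      have h1 : (M : ℝ) ≤ Real.exp B := by
        rw [← Real.log_le_iff_le_exp (by exact_mod_cast hM1)]
        exact hM2
      exact_mod_cast h1.trans (Nat.le_ceil _)
    set w : W := fun q => ⟨V q.1, hV q.1⟩ with hw
    set v : κ → Fin d := fun q => ⟨V q.1, hV q.1⟩ with hv
    have hevw : ∀ q ∈ d.primeFactors, ev d.primeFactors w q = V q := by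
      intro q hq
      rw [ev_apply w hq]
    have hevv : ∀ q ∈ K, ev K v q = V q := by
      intro q hq
      rw [ev_apply v hq]
    have h2d : 2 ∈ d.primeFactors := by
      rw [Nat.mem_primeFactors]
      exact ⟨Nat.prime_two, he.two_dvd, hd0⟩
    have htg : tg d ζ M (ev d.primeFactors w) = tg d ζ M V := by
      unfold tg
      rw [hevw 2 h2d, Finset.sum_congr rfl fun q hq => by rw [hevw q hq]]
    have hprod : ∏ q : κ, f q (v q) = Real.exp (∑ q ∈ K, lf d ζ q (V q)) := by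
      simp only [hf]
      rw [← Real.exp_sum, ← Finset.sum_coe_sort K (fun q => lf d ζ q (V q))]
    have hvB : v ∈ BS M w := by
      simp only [hBS, haa, Finset.mem_filter, Finset.mem_univ, true_and]
      rw [hprod, htg]
      rw [abs_le] at hest
      constructor
      · apply Real.exp_le_exp.mpr
        linarith [hest.1]
      · rw [show (1 + δ) = Real.exp (Real.log (1 + δ)) by rw [Real.exp_log (by linarith)],
          ← Real.exp_add]
        apply Real.exp_lt_exp.mpr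
        linarith [hest.2]
    have hPS1 : 1 ≤ PS d ζ K (ev K v) p := by
      unfold PS
      have h1 : 0 < #((Xd d p).filter fun χ => ∀ q ∈ K, χ (q : ZMod p) = ζ ^ ev K v q) := by
        rw [Finset.card_pos]
        refine ⟨χ, ?_⟩
        rw [Finset.mem_filter]
        refine ⟨hχ, fun q hq => ?_⟩
        rw [hevv q hq]
        refine hχV q ?_
        rw [hK, mem_filter] at hq
        exact hq.1
      exact_mod_cast h1
    have h1 : 1 / (p : ℝ) ≤ (1 / (p : ℝ)) * PS d ζ K (ev K v) p := le_mul_of_one_le_right hp0 hPS1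
    have h2 : (1 / (p : ℝ)) * PS d ζ K (ev K v) p ≤
        ∑ v ∈ BS M w, (1 / (p : ℝ)) * PS d ζ K (ev K v) p :=
      Finset.single_le_sum (f := fun v => (1 / (p : ℝ)) * PS d ζ K (ev K v) p)
        (fun v _ => mul_nonneg hp0 (hPS0 _ _)) hvB
    have h3 : ∑ v ∈ BS M w, (1 / (p : ℝ)) * PS d ζ K (ev K v) p ≤
        ∑ w : W, ∑ v ∈ BS M w, (1 / (p : ℝ)) * PS d ζ K (ev K v) p :=
      Finset.single_le_sum (f := fun w => ∑ v ∈ BS M w, (1 / (p : ℝ)) * PS d ζ K (ev K v) p)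
        (fun w _ => Finset.sum_nonneg fun v _ => mul_nonneg hp0 (hPS0 _ _)) (Finset.mem_univ w)
    have h4 : ∑ w : W, ∑ v ∈ BS M w, (1 / (p : ℝ)) * PS d ζ K (ev K v) p ≤
        ∑ M ∈ Finset.Icc 1 M₀, ∑ w : W, ∑ v ∈ BS M w, (1 / (p : ℝ)) * PS d ζ K (ev K v) p :=
      Finset.single_le_sum
        (f := fun M => ∑ w : W, ∑ v ∈ BS M w, (1 / (p : ℝ)) * PS d ζ K (ev K v) p)
        (fun M _ => Finset.sum_nonneg fun w _ => Finset.sum_nonneg fun v _ =>
          mul_nonneg hp0 (hPS0 _ _)) hMM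
    linarith
  rw [Finset.sum_filter]
  refine (Finset.sum_le_sum hpt).trans ?_
  rw [Finset.sum_add_distrib, Finset.sum_add_distrib, Finset.sum_add_distrib]
  have t1 : ∑ p ∈ Pr x, (if p ≤ Q then 1 / (p : ℝ) else 0) ≤ ε / 8 * LL := by
    rw [← Finset.sum_filter]
    refine le_trans (Finset.sum_le_sum_of_subset_of_nonneg ?_ fun _ _ _ => by positivity) e4
    intro p hp
    rw [mem_filter, mem_Pr] at hp
    exact mem_Pr.mpr ⟨hp.2, hp.1.2⟩
  have t2 : ∑ p ∈ Pr x, (if b1 p then 1 / (p : ℝ) else 0) ≤ ε / 8 * LL := by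
    rw [← Finset.sum_filter]
    exact e1
  have t3 : ∑ p ∈ Pr x, (if b2 p then 1 / (p : ℝ) else 0) ≤ ε / 8 * LL := by
    rw [← Finset.sum_filter]
    exact e2
  have t4 : ∑ p ∈ Pr x, ∑ M ∈ Finset.Icc 1 M₀, ∑ w : W, ∑ v ∈ BS M w,
      (1 / (p : ℝ)) * PS d ζ K (ev K v) p ≤ ε / 4 * LL := by
    rw [Finset.sum_comm]
    have u1 : ∀ M ∈ Finset.Icc 1 M₀, ∑ p ∈ Pr x, ∑ w : W, ∑ v ∈ BS M w,
        (1 / (p : ℝ)) * PS d ζ K (ev K v) p ≤ Fintype.card W * (2 * ε' * LL) := by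
      intro M _
      rw [Finset.sum_comm]
      have u2 : ∀ w ∈ (Finset.univ : Finset W), ∑ p ∈ Pr x, ∑ v ∈ BS M w,
          (1 / (p : ℝ)) * PS d ζ K (ev K v) p ≤ 2 * ε' * LL := by
        intro w _
        rw [Finset.sum_comm]
        refine (Finset.sum_le_sum fun v _ => e3 v).trans ?_
        rw [Finset.sum_const, nsmul_eq_mul]
        have u3 : (1 / (d : ℝ) ^ #K + ε'') * LL = 2 / (d : ℝ) ^ #K * LL := by rw [hε'']; ring
        rw [u3]
        calc (#(BS M w) : ℝ) * (2 / (d : ℝ) ^ #K * LL) ≤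
            (ε' * (d : ℝ) ^ #K) * (2 / (d : ℝ) ^ #K * LL) :=
              mul_le_mul_of_nonneg_right (hBSc M w) (by positivity)
          _ = 2 * ε' * LL := by field_simp
      refine (Finset.sum_le_sum u2).trans ?_
      rw [Finset.sum_const, nsmul_eq_mul, Finset.card_univ]
    refine (Finset.sum_le_sum u1).trans ?_
    rw [Finset.sum_const, nsmul_eq_mul, Nat.card_Icc, Nat.add_sub_cancel]
    have u4 : (M₀ : ℝ) * (Fintype.card W * (2 * ε' * LL)) = ε / 4 * LL * (N₀ / (N₀ + 1)) := by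
      rw [hε', hN₀]
      field_simp
      ring
    rw [u4]
    have u5 : N₀ / (N₀ + 1) ≤ 1 := by
      rw [div_le_one (by positivity)]; linarith
    exact mul_le_of_le_one_right (by positivity) u5
  have hfin : 0 ≤ ε * LL := by positivity
  linarith

end Pool.Agent.K1H76.RG
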