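import Pool.Agent.K1H76.RG.Stm

/-! # Characters with `χ ^ d = 1` modulo a prime -/

set_option autoImplicit false

namespace Pool.Agent.K1H76.RG

open Filter Finset Topology
open scoped ComplexConjugate

/-- the characters with `χ ^ d = 1` -/
noncomputable def Ad (d p : ℕ) : Finset (DirichletCharacter ℂ p) :=
  (Set.toFinite {χ : DirichletCharacter ℂ p | χ ^ d = 1}).toFinset

lemma mem_Ad {d p : ℕ} {χ : DirichletCharacter ℂ p} : χ ∈ Ad d p ↔ χ ^ d = 1 := by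
  simp [Ad]

lemma Xall_eq (p : ℕ) [NeZero p] : Xall p = (Finset.univ : Finset (DirichletCharacter ℂ p)) := by
  ext χ
  simp [mem_Xall]

lemma conj_inv {p : ℕ} (χ : DirichletCharacter ℂ p) [NeZero p] (a : ZMod p) (ha : IsUnit a) :
    conj (χ a) = χ a⁻¹ := by
  have h1 : ‖χ a‖ = 1 := by
    obtain ⟨u, rfl⟩ := ha
    exact DirichletCharacter.unit_norm_eq_one χ u
  have h2 : χ a * χ a⁻¹ = 1 := by
    rw [← map_mul, ZMod.mul_inv_of_unit a ha, map_one]
  have h3 : χ a * conj (χ a) = 1 := by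
    rw [Complex.mul_conj, Complex.normSq_eq_norm_sq, h1]; norm_num
  have h4 : χ a ≠ 0 := by
    intro h0
    rw [h0, zero_mul] at h3
    exact zero_ne_one h3
  exact mul_left_cancel₀ h4 (h3.trans h2.symm)

/-- the number of `d`-th roots as a character sum -/
lemma sum_pow_one (p : ℕ) [NeZero p] (hp : p.Prime) (d : ℕ) (hd : 1 ≤ d) (a : ZMod p)
    (ha : IsUnit a) :
    ∑ χ ∈ Ad d p, χ a⁻¹ = (Nat.card {x : ZMod p // x ^ d = a} : ℂ) := by
  have : Fact p.Prime := ⟨hp⟩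
  have hφ : ((p.totient : ℕ) : ℂ) ≠ 0 := by
    exact_mod_cast (Nat.totient_pos.mpr hp.pos).ne'
  have h1 : ∀ x : ZMod p, (if x ^ d = a then (p.totient : ℂ) else 0) =
      ∑ χ : DirichletCharacter ℂ p, χ a⁻¹ * χ (x ^ d) := by
    intro x
    rw [DirichletCharacter.sum_char_inv_mul_char_eq ℂ ha (x ^ d)]
    by_cases h : a = x ^ d
    · rw [if_pos h.symm, if_pos h]
    · rw [if_neg (fun h' => h h'.symm), if_neg h]
  have h2 : ∑ x : ZMod p, (if x ^ d = a then (p.totient : ℂ) else 0) =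
      (Nat.card {x : ZMod p // x ^ d = a} : ℂ) * p.totient := by
    rw [← Finset.sum_filter, Finset.sum_const, nsmul_eq_mul, Nat.card_eq_fintype_card,
      Fintype.card_subtype]
  have h3 : ∑ x : ZMod p, ∑ χ : DirichletCharacter ℂ p, χ a⁻¹ * χ (x ^ d) =
      (∑ χ ∈ Ad d p, χ a⁻¹) * p.totient := by
    classical
    have h0 : Ad d p = Finset.univ.filter (fun χ : DirichletCharacter ℂ p => χ ^ d = 1) := by
      ext χ
      simp [mem_Ad]
    rw [Finset.sum_comm, Finset.sum_mul, h0, Finset.sum_filter]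
    refine Finset.sum_congr rfl fun χ _ => ?_
    rw [← Finset.mul_sum]
    have h4 : ∀ x : ZMod p, χ (x ^ d) = (χ ^ d) x := by
      intro x
      rw [map_pow, MulChar.pow_apply' χ (by omega)]
    simp_rw [h4]
    by_cases h5 : χ ^ d = 1
    · rw [if_pos h5, h5, MulChar.sum_one_eq_card_units, ZMod.card_units_eq_totient]
    · rw [if_neg h5, MulChar.sum_eq_zero_of_ne_one h5, mul_zero]
  have h6 := h3.symm.trans ((Finset.sum_congr rfl fun x _ => (h1 x).symm).trans h2)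
  exact mul_right_cancel₀ hφ h6

lemma unit_cast {p q : ℕ} (hp : p.Prime) (hq : q.Prime) (h : q ≠ p) : IsUnit (q : ZMod p) := by
  rw [ZMod.isUnit_iff_coprime]
  exact (Nat.coprime_primes hq hp).mpr h

lemma card_pow_one_le (p : ℕ) (hp : p.Prime) (d : ℕ) (hd : 1 ≤ d) :
    #(Ad d p) ≤ d := by
  have : Fact p.Prime := ⟨hp⟩
  have : NeZero p := ⟨hp.ne_zero⟩
  have h1 := sum_pow_one p hp d hd 1 isUnit_one
  have h2 : ∑ χ ∈ Ad d p, χ ((1 : ZMod p)⁻¹) =
      (#(Ad d p) : ℂ) := by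
    have h0 : ∀ χ : DirichletCharacter ℂ p, χ ((1 : ZMod p)⁻¹) = 1 := fun χ => by
      rw [inv_one, map_one]
    simp_rw [h0]
    simp
  rw [h2] at h1
  have h3 : #(Ad d p) = Nat.card {x : ZMod p // x ^ d = 1} := by
    exact_mod_cast h1
  rw [h3, Nat.card_eq_fintype_card, Fintype.card_subtype]
  have h4 : (Finset.univ.filter fun x : ZMod p => x ^ d = 1) ⊆
      (Polynomial.nthRoots d (1 : ZMod p)).toFinset := by
    intro x hx
    rw [Finset.mem_filter] at hx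
    rw [Multiset.mem_toFinset, Polynomial.mem_nthRoots (by omega)]
    exact hx.2
  exact (Finset.card_le_card h4).trans ((Multiset.toFinset_card_le _).trans
    (Polynomial.card_nthRoots d 1))

/-- the correlation of two values -/
lemma corr (p : ℕ) (hp : p.Prime) (d : ℕ) (hd : 1 ≤ d) (q₁ q₂ : ℕ) (h1 : q₁.Prime) (h2 : q₂.Prime)
    (hq1 : q₁ ≠ p) (hq2 : q₂ ≠ p) :
    ∑ χ ∈ Ad d p, χ (q₁ : ZMod p) * conj (χ (q₂ : ZMod p)) =
      (rts d (q₂ * q₁ ^ (d - 1)) p : ℂ) := by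
  have : Fact p.Prime := ⟨hp⟩
  have : NeZero p := ⟨hp.ne_zero⟩
  have u1 := unit_cast hp h1 hq1
  have u2 := unit_cast hp h2 hq2
  have n1 : (q₁ : ZMod p) ≠ 0 := u1.ne_zero
  have n2 : (q₂ : ZMod p) ≠ 0 := u2.ne_zero
  have h3 : ∀ χ : DirichletCharacter ℂ p, χ (q₁ : ZMod p) * conj (χ (q₂ : ZMod p)) =
      χ (((q₂ : ZMod p) * (q₁ : ZMod p)⁻¹)⁻¹) := by
    intro χ
    rw [conj_inv χ _ u2, ← map_mul]
    congr 1
    field_simp
  simp_rw [h3]
  rw [sum_pow_one p hp d hd ((q₂ : ZMod p) * (q₁ : ZMod p)⁻¹)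
    (IsUnit.mk0 _ (mul_ne_zero n2 (inv_ne_zero n1)))]
  unfold rts
  congr 1
  refine Nat.card_congr ⟨fun x => ⟨x.1 * q₁, ?_⟩, fun y => ⟨y.1 * (q₁ : ZMod p)⁻¹, ?_⟩, ?_, ?_⟩
  · rw [mul_pow, x.2]
    push_cast
    obtain ⟨k, rfl⟩ : ∃ k, d = k + 1 := ⟨d - 1, by omega⟩
    rw [Nat.add_sub_cancel]
    field_simp
    ring
  · rw [mul_pow, y.2]
    push_cast
    obtain ⟨k, rfl⟩ : ∃ k, d = k + 1 := ⟨d - 1, by omega⟩
    rw [Nat.add_sub_cancel, inv_pow]
    field_simp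
    ring
  · intro x
    apply Subtype.ext
    simp only
    field_simp
  · intro y
    apply Subtype.ext
    simp only
    field_simp

end Pool.Agent.K1H76.RG
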