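import Pool.Agent.K1H76.RG.Asm3

/-! # The number of indices of order `d` -/

set_option autoImplicit false

namespace Pool.Agent.K1H76.RG

open Finset

/-- the number of irregular indices of order `d` -/
lemma card_irr (d p : ℕ) :
    Nat.card {n : ℕ | Even n ∧ 2 ≤ n ∧ n + 3 ≤ p ∧ Nat.gcd (n - 1) (p - 1) = (p - 1) / d ∧
      (p : ℤ) ∣ (bernoulli n).num} = #(irr d p) := by
  classical
  have h1 : {n : ℕ | Even n ∧ 2 ≤ n ∧ n + 3 ≤ p ∧ Nat.gcd (n - 1) (p - 1) = (p - 1) / d ∧
      (p : ℤ) ∣ (bernoulli n).num} = (((irr d p).image fun m => 2 * m : Finset ℕ) : Set ℕ) := by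
    ext n
    simp only [Set.mem_ofPred_eq, Finset.coe_image, Set.mem_image, Finset.mem_coe, irr,
      Finset.mem_filter, Finset.mem_range]
    constructor
    · rintro ⟨⟨m, hm⟩, h2, h3, h4, h5⟩
      obtain rfl : n = 2 * m := by omega
      exact ⟨m, ⟨by omega, by omega, by omega, h4, h5⟩, rfl⟩
    · rintro ⟨m, ⟨h1, h2, h3, h4, h5⟩, rfl⟩
      exact ⟨even_two_mul m, by omega, by omega, h4, h5⟩
  rw [h1, Nat.card_coe_set_eq, Set.ncard_coe_finset]
  exact Finset.card_image_of_injective _ fun a b h => by simpa using h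

/-- the number of all indices of order `d` -/
lemma card_all {d p : ℕ} (hd : 4 ≤ d) (he : Even d) (hp : 2 ≤ p) (hdp : d ∣ p - 1)
    (hodd : Odd ((p - 1) / d)) (hne : p ≠ d + 1) :
    Nat.card {n : ℕ | Even n ∧ 2 ≤ n ∧ n + 3 ≤ p ∧ Nat.gcd (n - 1) (p - 1) = (p - 1) / d} =
      d.totient := by
  classical
  obtain ⟨c, hc⟩ := hdp
  have hd0 : 0 < d := by omega
  have hcc : (p - 1) / d = c := by rw [hc, Nat.mul_div_cancel_left c hd0]
  rw [hcc] at hodd ⊢
  have hc3 : 3 ≤ c := by
    obtain ⟨k, hk⟩ := hodd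
    rcases Nat.eq_zero_or_pos k with h | h
    · exfalso
      subst h
      rw [hk] at hc
      omega
    · omega
  have h1 : {n : ℕ | Even n ∧ 2 ≤ n ∧ n + 3 ≤ p ∧ Nat.gcd (n - 1) (p - 1) = c} =
      (((un d).image fun j => 1 + c * j : Finset ℕ) : Set ℕ) := by
    ext n
    simp only [Set.mem_ofPred_eq, Finset.coe_image, Set.mem_image, Finset.mem_coe, un,
      Finset.mem_filter, Finset.mem_range]
    constructor
    · rintro ⟨h1, h2, h3, h4⟩
      have h5 : c ∣ n - 1 := by rw [← h4]; exact Nat.gcd_dvd_left _ _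
      obtain ⟨j, hj⟩ := h5
      refine ⟨j, ⟨?_, ?_⟩, by omega⟩
      · by_contra h
        have : c * d ≤ c * j := Nat.mul_le_mul_left c (not_lt.mp h)
        rw [mul_comm c d, ← hc, ← hj] at this
        omega
      · rw [hj, hc, mul_comm d c, Nat.gcd_mul_left] at h4
        have : Nat.gcd j d = 1 := Nat.eq_of_mul_eq_mul_left (by omega : 0 < c) (by rw [h4, mul_one])
        rw [Nat.Coprime, Nat.gcd_comm]
        exact this
    · rintro ⟨j, ⟨h1, h2⟩, rfl⟩
      have hj0 : j ≠ 0 := by
        rintro rfl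
        rw [Nat.coprime_zero_right] at h2
        omega
      have hjo : Odd j := by
        rw [← Nat.not_even_iff_odd]
        intro hje
        have h4 : 2 ∣ Nat.gcd d j := Nat.dvd_gcd he.two_dvd hje.two_dvd
        rw [h2] at h4
        omega
      have hcj : c ≤ c * j := Nat.le_mul_of_pos_right c (by omega)
      have h5 : c * (j + 1) ≤ c * d := Nat.mul_le_mul_left c h1
      rw [mul_comm c d, ← hc, mul_add, mul_one] at h5
      refine ⟨?_, by omega, by omega, ?_⟩
      · exact (odd_one).add_odd (hodd.mul hjo)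
      · rw [Nat.add_sub_cancel_left, hc, mul_comm d c, Nat.gcd_mul_left, Nat.gcd_comm]
        rw [Nat.Coprime] at h2
        rw [h2, mul_one]
  rw [h1, Nat.card_coe_set_eq, Set.ncard_coe_finset, Finset.card_image_of_injective, card_un]
  intro a b h
  simp only at h
  exact Nat.eq_of_mul_eq_mul_left (by omega : 0 < c) (by omega)

end Pool.Agent.K1H76.RG
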