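import Pool.Agent.K1H76.RG.Cnt
import Pool.Agent.K1H69.RG.Res
import Pool.Agent.K1H38.RG.Theta
import Pool.Agent.K1H26.RG.Deg1
import Pool.Agent.K1H49.RG.Lsp
import Pool.Agent.K1H36.RG.Lone
import Pool.Agent.K1H36.RG.Half
import Pool.Agent.K1H30.RG.Eul
import Pool.Agent.K1H9.RG.EulLog
import Pool.Agent.K1H48.RG.Dev
import Pool.Agent.K1H41.RG.LO
import Pool.Agent.K1H68.RG.Pat
import Pool.Agent.K1H24.RG.Den

/-! # The theorem -/

set_option autoImplicit false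

namespace Pool.Agent.K1H76.RG

open Filter Finset

theorem t_dev : S_DEV :=
  K1H48.RG.t_DEV (K1H9.RG.t_EULLOG (K1H30.RG.t_EUL K1H49.RG.t_LSP K1H36.RG.t_LONE))
    (t_MSQ (K1H26.RG.t_DEG1 (K1H69.RG.t_RES K1H38.RG.t_THETA)))

open Classical in
theorem final (d : ℕ) (hd : 3 ≤ d) (he : Even d) (ε : ℝ) (hε : 0 < ε) :
    ∀ᶠ x : ℕ in atTop, ∑ p ∈ (Pr x).filter (fun p => Bd' d p), 1 / (p : ℝ) ≤
      ε * Real.log (Real.log x) :=
  main t_dev K1H36.RG.t_HALF K1H45.RG.t_ALG K1H41.RG.t_LO (K1H68.RG.t_PAT K1H24.RG.t_DEN)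
    d hd he ε hε

end Pool.Agent.K1H76.RG
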