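import Pool.Agent.K1H76.RG.Chr
import Pool.Agent.Erdos456.Mertens

/-! # A10: the mean square of the middle range -/

set_option autoImplicit false

namespace Pool.Agent.K1H76.RG

open Filter Finset Topology
open scoped ComplexConjugate

lemma Pr_eq (x : ℕ) : Pr x = (Finset.Icc 1 x).filter Nat.Prime := by
  ext p
  simp only [Pr, mem_filter, mem_range, mem_Icc]
  constructor
  · rintro ⟨h1, h2⟩
    exact ⟨⟨h2.one_lt.le, by omega⟩, h2⟩
  · rintro ⟨⟨_, h1⟩, h2⟩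
    exact ⟨by omega, h2⟩

lemma mem_Pr {x p : ℕ} : p ∈ Pr x ↔ p ≤ x ∧ p.Prime := by
  simp only [Pr, mem_filter, mem_range]
  constructor
  · rintro ⟨h1, h2⟩
    exact ⟨by omega, h2⟩
  · rintro ⟨h1, h2⟩
    exact ⟨by omega, h2⟩

/-- Mertens' theorem -/
lemma mert : ∃ C : ℝ, 0 ≤ C ∧ ∀ x : ℕ, 3 ≤ x →
    |∑ p ∈ Pr x, 1 / (p : ℝ) - Real.log (Real.log x)| ≤ C := by
  obtain ⟨C, hC⟩ := Erdos456.Mert.mertens_inv
  refine ⟨C, (abs_nonneg _).trans (hC 3 le_rfl), fun x hx => ?_⟩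
  rw [Pr_eq]
  exact hC x hx

lemma mertl : ∃ C : ℝ, 0 ≤ C ∧ ∀ x : ℕ, 1 ≤ x →
    |∑ p ∈ Pr x, Real.log p / (p : ℝ) - Real.log x| ≤ C := by
  obtain ⟨C, hC⟩ := Erdos456.Mert.mertens_log
  refine ⟨C, (abs_nonneg _).trans (hC 1 le_rfl), fun x hx => ?_⟩
  rw [Pr_eq]
  exact hC x hx

lemma one_le_log {x : ℕ} (hx : 3 ≤ x) : 1 ≤ Real.log x := by
  have h1 : Real.exp 1 ≤ (x : ℝ) := by
    have h2 := Real.exp_one_lt_d9
    have h3 : (3 : ℝ) ≤ x := by exact_mod_cast hx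
    linarith
  have h2 := Real.log_le_log (Real.exp_pos 1) h1
  rwa [Real.log_exp] at h2

/-- `∑_{p ≤ x} p^{-s}` at `s = 1 + 1 / log x` -/
lemma sum_s : ∃ C : ℝ, 0 ≤ C ∧ ∀ x : ℕ, 3 ≤ x →
    Real.log (Real.log x) - C ≤ ∑ p ∈ Pr x, (p : ℝ) ^ (-(1 + 1 / Real.log x)) := by
  obtain ⟨C1, hC1, h1⟩ := mert
  obtain ⟨C2, hC2, h2⟩ := mertl
  refine ⟨C1 + (1 + C2), by positivity, fun x hx => ?_⟩
  have hl := one_le_log hx
  have hl0 : 0 < Real.log x := by linarith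
  have h3 := (abs_le.mp (h1 x hx)).1
  have h4 := (abs_le.mp (h2 x (by omega))).2
  have h5 : ∀ p ∈ Pr x, 1 / (p : ℝ) - (1 / Real.log x) * (Real.log p / p) ≤
      (p : ℝ) ^ (-(1 + 1 / Real.log x)) := by
    intro p hp
    have hp' := (mem_Pr.mp hp).2
    have hp0 : (0 : ℝ) < p := by exact_mod_cast hp'.pos
    rw [neg_add, Real.rpow_add hp0, Real.rpow_neg_one]
    have h6 : 1 - (1 / Real.log x) * Real.log p ≤ (p : ℝ) ^ (-(1 / Real.log x)) := by
      rw [Real.rpow_def_of_pos hp0]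
      have := Real.add_one_le_exp (Real.log p * -(1 / Real.log x))
      linarith
    have h7 := mul_le_mul_of_nonneg_left h6 (inv_pos.mpr hp0).le
    calc 1 / (p : ℝ) - (1 / Real.log x) * (Real.log p / p) =
        (p : ℝ)⁻¹ * (1 - (1 / Real.log x) * Real.log p) := by field_simp
      _ ≤ _ := h7
  have h6 := Finset.sum_le_sum h5
  rw [Finset.sum_sub_distrib, ← Finset.mul_sum] at h6
  have h7 : (1 / Real.log x) * ∑ p ∈ Pr x, Real.log p / (p : ℝ) ≤ 1 + C2 := by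
    have h8 : ∑ p ∈ Pr x, Real.log p / (p : ℝ) ≤ Real.log x + C2 := by linarith
    calc (1 / Real.log x) * ∑ p ∈ Pr x, Real.log p / (p : ℝ) ≤
        (1 / Real.log x) * (Real.log x + C2) := mul_le_mul_of_nonneg_left h8 (by positivity)
      _ = 1 + C2 / Real.log x := by field_simp
      _ ≤ 1 + C2 := by
          have := div_le_self hC2 hl
          linarith
  linarith

/-- `∑_{Q < q} 1/q² ≤ 1/Q` -/
lemma tail_sq (Q Y : ℕ) (hQ : 1 ≤ Q) : ∑ q ∈ (Ioc Q Y).filter Nat.Prime, 1 / (q : ℝ) ^ 2 ≤ 1 / (Q : ℝ) := by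
  have h1 : ∑ q ∈ (Ioc Q Y).filter Nat.Prime, 1 / (q : ℝ) ^ 2 ≤ ∑ q ∈ Ioc Q Y, 1 / (q : ℝ) ^ 2 :=
    Finset.sum_le_sum_of_subset_of_nonneg (filter_subset _ _) fun _ _ _ => by positivity
  refine h1.trans ?_
  rcases le_or_gt Q Y with h | h
  · have h2 : ∀ n, Q ≤ n → ∑ q ∈ Ioc Q n, 1 / (q : ℝ) ^ 2 ≤ 1 / (Q : ℝ) - 1 / (n : ℝ) := by
      intro n hn
      induction n, hn using Nat.le_induction with
      | base => simp
      | succ n hn ih =>
        rw [Finset.sum_Ioc_succ_top (by omega)]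
        have hn0 : (0 : ℝ) < n := by exact_mod_cast (by omega : 0 < n)
        have h3 : 1 / ((n + 1 : ℕ) : ℝ) ^ 2 ≤ 1 / n - 1 / ((n + 1 : ℕ) : ℝ) := by
          push_cast
          rw [div_sub_div _ _ hn0.ne' (by positivity), div_le_div_iff₀ (by positivity) (by positivity)]
          nlinarith
        linarith
    have h3 := h2 Y h
    have : (0 : ℝ) ≤ 1 / Y := by positivity
    linarith
  · rw [Finset.Ioc_eq_empty (by omega)]
    simp

/-- expansion of the square -/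
lemma expand {p : ℕ} (A : Finset (DirichletCharacter ℂ p)) (P : Finset ℕ) :
    ∑ χ ∈ A, ‖∑ q ∈ P, χ (q : ZMod p) / (q : ℂ)‖ ^ 2 =
      ∑ q₁ ∈ P, ∑ q₂ ∈ P, 1 / ((q₁ : ℝ) * q₂) *
        (∑ χ ∈ A, χ (q₁ : ZMod p) * conj (χ (q₂ : ZMod p))).re := by
  have h1 : ∀ χ : DirichletCharacter ℂ p, ‖∑ q ∈ P, χ (q : ZMod p) / (q : ℂ)‖ ^ 2 =
      ∑ q₁ ∈ P, ∑ q₂ ∈ P, 1 / ((q₁ : ℝ) * q₂) * (χ (q₁ : ZMod p) * conj (χ (q₂ : ZMod p))).re := by
    intro χ
    have h2 : ((‖∑ q ∈ P, χ (q : ZMod p) / (q : ℂ)‖ ^ 2 : ℝ) : ℂ) =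
        ∑ q₁ ∈ P, ∑ q₂ ∈ P, ((1 / ((q₁ : ℝ) * q₂) : ℝ) : ℂ) *
          (χ (q₁ : ZMod p) * conj (χ (q₂ : ZMod p))) := by
      push_cast
      rw [← Complex.mul_conj', map_sum, Finset.sum_mul_sum]
      refine Finset.sum_congr rfl fun q₁ _ => Finset.sum_congr rfl fun q₂ _ => ?_
      rw [map_div₀, Complex.conj_natCast]
      ring
    have h3 := congrArg Complex.re h2
    rw [Complex.ofReal_re, Complex.re_sum] at h3
    rw [h3]
    refine Finset.sum_congr rfl fun q₁ _ => ?_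
    rw [Complex.re_sum]
    refine Finset.sum_congr rfl fun q₂ _ => ?_
    rw [Complex.re_ofReal_mul]
  simp_rw [h1]
  rw [Finset.sum_comm]
  refine Finset.sum_congr rfl fun q₁ _ => ?_
  rw [Finset.sum_comm]
  refine Finset.sum_congr rfl fun q₂ _ => ?_
  rw [← Finset.mul_sum, Complex.re_sum]

/-- the characters with `χ ^ d = 1`, `χ ≠ 1` -/
noncomputable def Bd (d p : ℕ) : Finset (DirichletCharacter ℂ p) :=
  (Set.toFinite {χ : DirichletCharacter ℂ p | χ ^ d = 1 ∧ χ ≠ 1}).toFinset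

lemma mem_Bd {d p : ℕ} {χ : DirichletCharacter ℂ p} : χ ∈ Bd d p ↔ χ ^ d = 1 ∧ χ ≠ 1 := by
  simp [Bd]

lemma sum_Ad {d p : ℕ} (f : DirichletCharacter ℂ p → ℂ) :
    ∑ χ ∈ Ad d p, f χ = ∑ χ ∈ Bd d p, f χ + f 1 := by
  classical
  have h1 : Ad d p = insert 1 (Bd d p) := by
    ext χ
    rw [mem_Ad, Finset.mem_insert, mem_Bd]
    by_cases h : χ = 1
    · simp [h]
    · simp [h]
  rw [h1, Finset.sum_insert (by rw [mem_Bd]; tauto), add_comm]

/-- the correlations for `χ ^ d = 1`, `χ ≠ 1` -/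
noncomputable def cr (d p q₁ q₂ : ℕ) : ℝ :=
  (∑ χ ∈ Bd d p, χ (q₁ : ZMod p) * conj (χ (q₂ : ZMod p))).re

lemma norm_chi_le {p : ℕ} [NeZero p] (χ : DirichletCharacter ℂ p) (a : ZMod p) : ‖χ a‖ ≤ 1 :=
  DirichletCharacter.norm_le_one χ a

lemma cr_le {d p q₁ q₂ : ℕ} (hp : p.Prime) (hd : 1 ≤ d) : cr d p q₁ q₂ ≤ d := by
  have : NeZero p := ⟨hp.ne_zero⟩
  unfold cr
  refine (Complex.re_le_norm _).trans ((norm_sum_le _ _).trans ?_)
  have h1 : ∀ χ ∈ Bd d p, ‖χ (q₁ : ZMod p) * conj (χ (q₂ : ZMod p))‖ ≤ 1 := by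
    intro χ _
    rw [norm_mul, RCLike.norm_conj]
    exact mul_le_one₀ (norm_chi_le _ _) (norm_nonneg _) (norm_chi_le _ _)
  refine (Finset.sum_le_sum h1).trans ?_
  rw [Finset.sum_const, nsmul_eq_mul, mul_one]
  have h2 : #(Bd d p) ≤ d := (Finset.card_le_card fun χ hχ => mem_Ad.mpr (mem_Bd.mp hχ).1).trans
    (card_pow_one_le p hp d hd)
  exact_mod_cast h2

lemma cr_eq {d p q₁ q₂ : ℕ} (hp : p.Prime) (hd : 1 ≤ d) (h1 : q₁.Prime) (h2 : q₂.Prime)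
    (hq1 : q₁ ≠ p) (hq2 : q₂ ≠ p) : cr d p q₁ q₂ = rts d (q₂ * q₁ ^ (d - 1)) p - 1 := by
  have : NeZero p := ⟨hp.ne_zero⟩
  have : Fact p.Prime := ⟨hp⟩
  unfold cr
  have h4 := sum_Ad (d := d) (p := p) (fun χ => χ (q₁ : ZMod p) * conj (χ (q₂ : ZMod p)))
  rw [corr p hp d hd q₁ q₂ h1 h2 hq1 hq2] at h4
  have u1 := unit_cast hp h1 hq1
  have u2 := unit_cast hp h2 hq2
  have h5 : (1 : DirichletCharacter ℂ p) (q₁ : ZMod p) = 1 := MulChar.one_apply u1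
  have h6 : (1 : DirichletCharacter ℂ p) (q₂ : ZMod p) = 1 := MulChar.one_apply u2
  simp only [h5, h6, map_one, mul_one] at h4
  have h7 : ∑ χ ∈ Bd d p, χ (q₁ : ZMod p) * conj (χ (q₂ : ZMod p)) =
      ((rts d (q₂ * q₁ ^ (d - 1)) p - 1 : ℝ) : ℂ) := by
    push_cast
    linear_combination -h4
  rw [h7, Complex.ofReal_re]

lemma cr_zero {d p q₁ q₂ : ℕ} (hp : p.Prime) (h : q₁ = p ∨ q₂ = p) : cr d p q₁ q₂ = 0 := by
  have : NeZero p := ⟨hp.ne_zero⟩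
  have : Fact p.Prime := ⟨hp⟩
  unfold cr
  rw [Finset.sum_eq_zero, Complex.zero_re]
  intro χ _
  have h0 : χ ((p : ℕ) : ZMod p) = 0 := by
    rw [ZMod.natCast_self]
    exact MulChar.map_nonunit χ (by simp)
  rcases h with h | h
  · rw [h, h0, zero_mul]
  · rw [h, h0, map_zero, mul_zero]

lemma eq_Bd (d p : ℕ) [DecidablePred fun χ : DirichletCharacter ℂ p => χ ^ d = 1 ∧ χ ≠ 1] :
    (Xall p).filter (fun χ => χ ^ d = 1 ∧ χ ≠ 1) = Bd d p := by
  ext χ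
  rw [Finset.mem_filter, mem_Bd]
  simp [mem_Xall]

lemma cr_le' {d p q₁ q₂ : ℕ} (hp : p.Prime) (hd : 1 ≤ d) (h1 : q₁.Prime) (h2 : q₂.Prime) :
    cr d p q₁ q₂ ≤ rts d (q₂ * q₁ ^ (d - 1)) p - 1 + (if p = q₁ then 1 else 0) +
      (if p = q₂ then 1 else 0) := by
  have h0 : (0 : ℝ) ≤ rts d (q₂ * q₁ ^ (d - 1)) p := Nat.cast_nonneg _
  by_cases h : q₁ = p ∨ q₂ = p
  · rw [cr_zero hp h]
    rcases h with h | h
    · rw [if_pos h.symm]
      split_ifs <;> linarith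
    · rw [if_pos h.symm]
      split_ifs <;> linarith
  · push Not at h
    rw [cr_eq hp hd h1 h2 h.1 h.2, if_neg (fun h' => h.1 h'.symm), if_neg (fun h' => h.2 h'.symm)]
    linarith

lemma rpow_le_half {q : ℕ} (hq : q.Prime) {s : ℝ} (hs : 1 ≤ s) : (q : ℝ) ^ (-s) ≤ 1 / 2 := by
  have h2 : (2 : ℝ) ≤ q := by exact_mod_cast hq.two_le
  have h1 : (q : ℝ) ^ (-s) ≤ (q : ℝ) ^ (-1 : ℝ) :=
    Real.rpow_le_rpow_of_exponent_le (by linarith) (by linarith)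
  rw [Real.rpow_neg_one] at h1
  refine h1.trans ?_
  rw [inv_eq_one_div]
  exact one_div_le_one_div_of_le (by norm_num) h2

open Classical in
theorem t_MSQ (h : S_DEG1) : S_MSQ := by
  intro d hd
  obtain ⟨C0, hC0, hdeg⟩ := h d hd
  obtain ⟨C1, hC1, hmert⟩ := mert
  obtain ⟨C2, hC2, hs⟩ := sum_s
  have hd0 : (0 : ℝ) < d := by exact_mod_cast (by omega : 0 < d)
  refine ⟨3 * (d + d * C1 + (3 * C0 + C2 + 1) * (1 + C1) ^ 2), by positivity, ?_⟩
  intro Q Y x hQ hQY hx hY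
  have hl := one_le_log hx
  have hlY := one_le_log hY
  set L := Real.log (Real.log x) with hL
  set ℓ := Real.log (Real.log Y) with hℓ
  have hL0 : 0 ≤ L := Real.log_nonneg hl
  have hℓ0 : 0 ≤ ℓ := Real.log_nonneg hlY
  have hlx0 : 0 < Real.log x := by linarith
  set s : ℝ := 1 + 1 / Real.log x with hs'
  have hs1 : 1 < s := by
    have : 0 < 1 / Real.log x := by positivity
    linarith
  have hs2 : s ≤ 2 := by
    have : 1 / Real.log x ≤ 1 := by rw [div_le_one hlx0]; exact hl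
    linarith
  have hsL : Real.log (1 / (s - 1)) = L := by
    rw [hs', add_sub_cancel_left, one_div_one_div]
  set P := (Ioc Q Y).filter Nat.Prime with hP
  have hQ0 : (1 : ℝ) ≤ Q := by exact_mod_cast (by omega : 1 ≤ Q)
  -- step 1
  have h1 : ∀ p ∈ Pr x, 1 / (p : ℝ) ≤ 3 * (p : ℝ) ^ (-s) := by
    intro p hp
    obtain ⟨hpx, hp'⟩ := mem_Pr.mp hp
    have hp0 : (0 : ℝ) < p := by exact_mod_cast hp'.pos
    have hlp : Real.log p ≤ Real.log x := Real.log_le_log hp0 (by exact_mod_cast hpx)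
    rw [hs', neg_add, Real.rpow_add hp0, Real.rpow_neg_one]
    have h2 : 1 ≤ 3 * (p : ℝ) ^ (-(1 / Real.log x)) := by
      rw [Real.rpow_def_of_pos hp0]
      have h3 : -1 ≤ Real.log p * -(1 / Real.log x) := by
        have : Real.log p / Real.log x ≤ 1 := by rw [div_le_one hlx0]; exact hlp
        have h4 : Real.log p * -(1 / Real.log x) = -(Real.log p / Real.log x) := by ring
        rw [h4]; linarith
      have h4 := Real.exp_le_exp.mpr h3
      have h5 : (1 : ℝ) / 3 ≤ Real.exp (-1) := by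
        rw [Real.exp_neg, inv_eq_one_div]
        apply one_div_le_one_div_of_le (Real.exp_pos 1)
        have := Real.exp_one_lt_d9
        linarith
      linarith
    calc 1 / (p : ℝ) = (p : ℝ)⁻¹ * 1 := by rw [one_div, mul_one]
      _ ≤ (p : ℝ)⁻¹ * (3 * (p : ℝ) ^ (-(1 / Real.log x))) :=
          mul_le_mul_of_nonneg_left h2 (inv_pos.mpr hp0).le
      _ = _ := by ring
  -- step 2
  have h2 : ∀ p : ℕ, ∑ χ ∈ (Xall p).filter (fun χ => χ ^ d = 1 ∧ χ ≠ 1),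
      ‖∑ q ∈ P, χ (q : ZMod p) / (q : ℂ)‖ ^ 2 =
      ∑ q₁ ∈ P, ∑ q₂ ∈ P, 1 / ((q₁ : ℝ) * q₂) * cr d p q₁ q₂ := by
    intro p
    rw [eq_Bd, expand]
    rfl
  have h2' : ∀ p : ℕ, 0 ≤ ∑ q₁ ∈ P, ∑ q₂ ∈ P, 1 / ((q₁ : ℝ) * q₂) * cr d p q₁ q₂ := by
    intro p
    rw [← h2]
    exact Finset.sum_nonneg fun _ _ => by positivity
  simp_rw [h2]
  set E : ℝ := C0 * (3 + ℓ) + C2 + 1 with hE
  have hE0 : 0 ≤ E := by positivity
  -- step 4: the inner sums
  have hW : ∀ q₁ ∈ P, ∀ q₂ ∈ P, ∑ p ∈ Pr x, (p : ℝ) ^ (-s) * cr d p q₁ q₂ ≤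
      E + (if q₁ = q₂ then d * (L + C1) else 0) := by
    intro q₁ hq₁ q₂ hq₂
    rw [hP, mem_filter, mem_Ioc] at hq₁ hq₂
    by_cases hq : q₁ = q₂
    · rw [if_pos hq]
      have h3 : ∑ p ∈ Pr x, (p : ℝ) ^ (-s) * cr d p q₁ q₂ ≤ ∑ p ∈ Pr x, d * (1 / (p : ℝ)) := by
        refine Finset.sum_le_sum fun p hp => ?_
        obtain ⟨hpx, hp'⟩ := mem_Pr.mp hp
        have hp1 : (1 : ℝ) ≤ p := by exact_mod_cast hp'.one_lt.le
        have h4 : (p : ℝ) ^ (-s) ≤ 1 / p := by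
          have : (p : ℝ) ^ (-s) ≤ (p : ℝ) ^ (-1 : ℝ) :=
            Real.rpow_le_rpow_of_exponent_le hp1 (by linarith)
          rwa [Real.rpow_neg_one, ← one_div] at this
        have h5 : (0 : ℝ) ≤ (p : ℝ) ^ (-s) := by positivity
        calc (p : ℝ) ^ (-s) * cr d p q₁ q₂ ≤ (p : ℝ) ^ (-s) * d :=
              mul_le_mul_of_nonneg_left (cr_le hp' (by omega)) h5
          _ ≤ 1 / p * d := mul_le_mul_of_nonneg_right h4 hd0.le
          _ = _ := by ring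
      rw [← Finset.mul_sum] at h3
      have h4 := (abs_le.mp (hmert x hx)).2
      have h5 : ∑ p ∈ Pr x, 1 / (p : ℝ) ≤ L + C1 := by linarith
      have h6 := mul_le_mul_of_nonneg_left h5 hd0.le
      linarith
    · rw [if_neg hq, add_zero]
      have h3 : ∑ p ∈ Pr x, (p : ℝ) ^ (-s) * cr d p q₁ q₂ ≤
          ∑ p ∈ Pr x, ((rts d (q₂ * q₁ ^ (d - 1)) p : ℝ) * (p : ℝ) ^ (-s) - (p : ℝ) ^ (-s) +
            (if p = q₁ then (p : ℝ) ^ (-s) else 0) + (if p = q₂ then (p : ℝ) ^ (-s) else 0)) := by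
        refine Finset.sum_le_sum fun p hp => ?_
        obtain ⟨hpx, hp'⟩ := mem_Pr.mp hp
        have h4 := mul_le_mul_of_nonneg_left
          (cr_le' hp' (by omega : 1 ≤ d) hq₁.2 hq₂.2) (by positivity : (0 : ℝ) ≤ (p : ℝ) ^ (-s))
        refine h4.trans (le_of_eq ?_)
        split_ifs <;> ring
      rw [Finset.sum_add_distrib, Finset.sum_add_distrib, Finset.sum_sub_distrib] at h3
      have h4 : ∀ q : ℕ, q.Prime → ∑ p ∈ Pr x, (if p = q then (p : ℝ) ^ (-s) else 0) ≤ 1 / 2 := by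
        intro q hq'
        rw [Finset.sum_ite_eq']
        split_ifs
        · exact rpow_le_half hq' hs1.le
        · norm_num
      have h5 := hdeg q₂ q₁ hq₂.2 hq₁.2 (fun h => hq h.symm) s hs1 hs2 x
      have h6 := hs x hx
      rw [hsL] at h5
      have h7 : Real.log (1 + Real.log ((q₂ : ℝ) * q₁)) ≤ 2 + ℓ := by
        have e1 : (1 : ℝ) ≤ q₁ := by exact_mod_cast hq₁.2.one_lt.le
        have e2 : (1 : ℝ) ≤ q₂ := by exact_mod_cast hq₂.2.one_lt.le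
        have e3 : Real.log q₁ ≤ Real.log Y :=
          Real.log_le_log (by linarith) (by exact_mod_cast hq₁.1.2)
        have e4 : Real.log q₂ ≤ Real.log Y :=
          Real.log_le_log (by linarith) (by exact_mod_cast hq₂.1.2)
        have e5 : 0 ≤ Real.log q₁ := Real.log_nonneg e1
        have e6 : 0 ≤ Real.log q₂ := Real.log_nonneg e2
        have e7 : Real.exp 2 ≥ 3 := by
          have := Real.add_one_le_exp (2 : ℝ)
          linarith
        rw [Real.log_mul (by linarith) (by linarith)]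
        calc Real.log (1 + (Real.log q₂ + Real.log q₁)) ≤ Real.log (Real.exp 2 * Real.log Y) := by
              apply Real.log_le_log (by linarith)
              nlinarith
          _ = 2 + ℓ := by
              rw [Real.log_mul (Real.exp_pos 2).ne' (by linarith), Real.log_exp]
      have h8 : C0 * (1 + Real.log (1 + Real.log ((q₂ : ℝ) * q₁))) ≤ C0 * (3 + ℓ) :=
        mul_le_mul_of_nonneg_left (by linarith) hC0.le
      have h9 := h4 q₁ hq₁.2
      have h10 := h4 q₂ hq₂.2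
      rw [hE]
      linarith
  -- sums over P
  have hP1 : ∑ q ∈ P, 1 / (q : ℝ) ≤ ℓ + C1 := by
    have h3 : ∑ q ∈ P, 1 / (q : ℝ) ≤ ∑ q ∈ Pr Y, 1 / (q : ℝ) := by
      apply Finset.sum_le_sum_of_subset_of_nonneg
      · intro q hq
        rw [hP, mem_filter, mem_Ioc] at hq
        exact mem_Pr.mpr ⟨hq.1.2, hq.2⟩
      · intro _ _ _; positivity
    have h4 := (abs_le.mp (hmert Y hY)).2
    linarith
  have hP0 : 0 ≤ ∑ q ∈ P, 1 / (q : ℝ) := Finset.sum_nonneg fun _ _ => by positivity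
  have hP2 := tail_sq Q Y (by omega)
  calc ∑ p ∈ Pr x, 1 / (p : ℝ) * ∑ q₁ ∈ P, ∑ q₂ ∈ P, 1 / ((q₁ : ℝ) * q₂) * cr d p q₁ q₂
      ≤ ∑ p ∈ Pr x, 3 * (p : ℝ) ^ (-s) * ∑ q₁ ∈ P, ∑ q₂ ∈ P, 1 / ((q₁ : ℝ) * q₂) * cr d p q₁ q₂ :=
        Finset.sum_le_sum fun p hp => mul_le_mul_of_nonneg_right (h1 p hp) (h2' p)
    _ = 3 * ∑ q₁ ∈ P, ∑ q₂ ∈ P, 1 / ((q₁ : ℝ) * q₂) * ∑ p ∈ Pr x, (p : ℝ) ^ (-s) * cr d p q₁ q₂ := by
        simp_rw [Finset.mul_sum]
        rw [Finset.sum_comm]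
        refine Finset.sum_congr rfl fun q₁ _ => ?_
        rw [Finset.sum_comm]
        refine Finset.sum_congr rfl fun q₂ _ => Finset.sum_congr rfl fun p _ => ?_
        ring
    _ ≤ 3 * ∑ q₁ ∈ P, ∑ q₂ ∈ P, 1 / ((q₁ : ℝ) * q₂) *
          (E + (if q₁ = q₂ then d * (L + C1) else 0)) := by
        refine mul_le_mul_of_nonneg_left ?_ (by norm_num)
        exact Finset.sum_le_sum fun q₁ h₁ => Finset.sum_le_sum fun q₂ h₂ =>
          mul_le_mul_of_nonneg_left (hW q₁ h₁ q₂ h₂) (by positivity)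
    _ = 3 * (E * (∑ q ∈ P, 1 / (q : ℝ)) ^ 2 + d * (L + C1) * ∑ q ∈ P, 1 / (q : ℝ) ^ 2) := by
        congr 1
        have h3 : ∀ q₁ ∈ P, ∑ q₂ ∈ P, 1 / ((q₁ : ℝ) * q₂) *
            (E + (if q₁ = q₂ then d * (L + C1) else 0)) =
            E * ((1 / (q₁ : ℝ)) * ∑ q ∈ P, 1 / (q : ℝ)) + d * (L + C1) * (1 / (q₁ : ℝ) ^ 2) := by
          intro q₁ hq₁
          simp_rw [mul_add]
          rw [Finset.sum_add_distrib]
          congr 1
          · rw [Finset.mul_sum, Finset.mul_sum]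
            refine Finset.sum_congr rfl fun q₂ _ => ?_
            rw [one_div_mul_one_div_rev, mul_comm (q₂ : ℝ)]
            ring
          · simp_rw [mul_ite, mul_zero]
            rw [Finset.sum_ite_eq, if_pos hq₁]
            ring
        rw [Finset.sum_congr rfl h3, Finset.sum_add_distrib, ← Finset.mul_sum, ← Finset.mul_sum,
          ← Finset.sum_mul]
        ring
    _ ≤ 3 * ((3 * C0 + C2 + 1) * (1 + C1) ^ 2 * (1 + ℓ) ^ 3 + (d * (L / Q) + d * C1)) := by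
        refine mul_le_mul_of_nonneg_left (add_le_add ?_ ?_) (by norm_num)
        · have h3 : E ≤ (3 * C0 + C2 + 1) * (1 + ℓ) := by
            rw [hE]
            nlinarith [mul_nonneg hC0.le hℓ0, mul_nonneg hC2 hℓ0]
          have h4 : ∑ q ∈ P, 1 / (q : ℝ) ≤ (1 + C1) * (1 + ℓ) := by
            nlinarith [mul_nonneg hC1 hℓ0]
          have h5 : (∑ q ∈ P, 1 / (q : ℝ)) ^ 2 ≤ ((1 + C1) * (1 + ℓ)) ^ 2 :=
            pow_le_pow_left₀ hP0 h4 2
          calc E * (∑ q ∈ P, 1 / (q : ℝ)) ^ 2 ≤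
              ((3 * C0 + C2 + 1) * (1 + ℓ)) * ((1 + C1) * (1 + ℓ)) ^ 2 :=
                mul_le_mul h3 h5 (by positivity) (by positivity)
            _ = _ := by ring
        · have h3 : d * (L + C1) * ∑ q ∈ P, 1 / (q : ℝ) ^ 2 ≤ d * (L + C1) * (1 / Q) :=
            mul_le_mul_of_nonneg_left hP2 (by positivity)
          refine h3.trans ?_
          have h4 : d * C1 * (1 / (Q : ℝ)) ≤ d * C1 := by
            have : (1 : ℝ) / Q ≤ 1 := by rw [div_le_one (by linarith)]; exact hQ0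
            exact mul_le_of_le_one_right (by positivity) this
          calc d * (L + C1) * (1 / (Q : ℝ)) = d * (L / Q) + d * C1 * (1 / (Q : ℝ)) := by ring
            _ ≤ _ := by linarith
    _ ≤ _ := by
        have a1 : 0 ≤ (3 * C0 + C2 + 1) * (1 + C1) ^ 2 := by positivity
        have a2 : 0 ≤ L / (Q : ℝ) := by positivity
        have a3 : (0 : ℝ) ≤ (1 + ℓ) ^ 3 := by positivity
        have a4 : (0 : ℝ) ≤ d * C1 := by positivity
        nlinarith [mul_nonneg a1 a2, mul_nonneg hd0.le a3, mul_nonneg a4 a2, mul_nonneg a4 a3, hd0]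

end Pool.Agent.K1H76.RG
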