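import Pool.Agent.K1H76.RG.Msq

/-!
# Interface of the assembly
-/

set_option autoImplicit false

namespace Pool.Agent.K1H76.RG

open Filter Finset Topology

/-- deviation of `log |L(1, χ)|` from the Euler product up to `Y` -/
noncomputable def dev (Y : ℕ) {p : ℕ} [NeZero p] (χ : DirichletCharacter ℂ p) : ℝ :=
  |Real.log ‖DirichletCharacter.LFunction χ 1‖ +
    ∑ q ∈ Pr Y, Real.log ‖1 - χ (q : ZMod p) / (q : ℂ)‖|

open Classical in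
/-- **B1**: `S_EUL` in logarithmic density, with one length for all `p ≤ x`. -/
def S_EULLOG : Prop := ∃ A : ℝ, 1 ≤ A ∧ ∀ η : ℝ, 0 < η → ∀ ε : ℝ, 0 < ε → ∀ᶠ x : ℕ in atTop,
  ∑ p ∈ (Pr x).filter (fun p => ∃ (_ : NeZero p) (χ : DirichletCharacter ℂ p), χ ≠ 1 ∧
      η < dev ⌈(2 * Real.log x) ^ A⌉₊ χ), 1 / (p : ℝ) ≤ ε * Real.log (Real.log x)

open Classical in
/-- **B2**: for a fixed order `d` a fixed length `Q` is enough. -/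
def S_DEV : Prop := ∀ d : ℕ, 2 ≤ d → ∀ ρ : ℝ, 0 < ρ → ∀ ε : ℝ, 0 < ε → ∃ Q₀ : ℕ, ∀ Q : ℕ, Q₀ ≤ Q →
  ∀ᶠ x : ℕ in atTop,
    ∑ p ∈ (Pr x).filter (fun p => ∃ (_ : NeZero p) (χ : DirichletCharacter ℂ p), χ ∈ Xd d p ∧
      ρ < dev Q χ), 1 / (p : ℝ) ≤ ε * Real.log (Real.log x)

end Pool.Agent.K1H76.RG
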