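import Pool.Agent.K1H76.RG.Asm3

/-! # All small orders at once -/

set_option autoImplicit false

namespace Pool.Agent.K1H76.RG

open Filter Finset Topology

lemma diag (P : ℕ → ℕ → Prop) (h : ∀ k, ∀ᶠ x in atTop, P k x) :
    ∃ D : ℕ → ℕ, Monotone D ∧ Tendsto D atTop atTop ∧ ∀ᶠ x in atTop, P (D x) x := by
  classical
  have h1 : ∀ k, ∃ X, ∀ x ≥ X, P k x := fun k => eventually_atTop.mp (h k)
  choose X hX using h1
  set Y : ℕ → ℕ := fun k => ∑ i ∈ range (k + 1), (X i + 1) with hY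
  have hYs : ∀ k, Y (k + 1) = Y k + (X (k + 1) + 1) := fun k => Finset.sum_range_succ _ _
  have hYX : ∀ k, X k ≤ Y k := by
    intro k
    have := Finset.single_le_sum (f := fun i => X i + 1) (fun _ _ => Nat.zero_le _)
      (Finset.self_mem_range_succ k)
    simp only [hY]
    omega
  have hYk : ∀ k, k ≤ Y k := by
    intro k
    induction k with
    | zero => exact Nat.zero_le _
    | succ k ih => rw [hYs]; omega
  refine ⟨fun x => Nat.findGreatest (fun k => Y k ≤ x) x, ?_, ?_, ?_⟩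
  · intro x y hxy
    exact Nat.findGreatest_mono (fun k hk => le_trans hk hxy) hxy
  · rw [tendsto_atTop]
    intro k
    filter_upwards [eventually_ge_atTop (Y k)] with x hx
    exact Nat.le_findGreatest ((hYk k).trans hx) hx
  · filter_upwards [eventually_ge_atTop (Y 0)] with x hx
    have h2 : Y (Nat.findGreatest (fun k => Y k ≤ x) x) ≤ x :=
      Nat.findGreatest_spec (P := fun k => Y k ≤ x) (Nat.zero_le x) hx
    exact hX _ x ((hYX _).trans h2)

open Classical in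
theorem unif (h : ∀ d : ℕ, 4 ≤ d → Even d → ∀ ε : ℝ, 0 < ε →
    ∀ᶠ x : ℕ in atTop, ∑ p ∈ (Pr x).filter (fun p => Bd' d p), 1 / (p : ℝ) ≤
      ε * Real.log (Real.log x)) :
    ∃ D : ℕ → ℕ, Monotone D ∧ Tendsto D atTop atTop ∧ ∀ ε : ℝ, 0 < ε → ∀ᶠ x : ℕ in atTop,
      ∑ p ∈ (Pr x).filter (fun p => ∃ d : ℕ, Even d ∧ 4 ≤ d ∧ d ≤ D p ∧ Bd' d p), 1 / (p : ℝ) ≤
        ε * Real.log (Real.log x) := by
  obtain ⟨D, hD1, hD2, hD3⟩ := diag (fun k x =>
    ∑ p ∈ (Pr x).filter (fun p => ∃ d : ℕ, Even d ∧ 4 ≤ d ∧ d ≤ k ∧ Bd' d p), 1 / (p : ℝ) ≤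
      1 / ((k : ℝ) + 1) * Real.log (Real.log x)) (by
    intro k
    set S : Finset ℕ := (range (k + 1)).filter (fun d => Even d ∧ 4 ≤ d) with hS
    have hk : (0 : ℝ) < (k : ℝ) + 1 := by positivity
    have h1 : ∀ᶠ x : ℕ in atTop, ∀ d ∈ S, ∑ p ∈ (Pr x).filter (fun p => Bd' d p), 1 / (p : ℝ) ≤
        1 / ((k : ℝ) + 1) / ((k : ℝ) + 1) * Real.log (Real.log x) := by
      rw [Filter.eventually_all_finset]
      intro d hd
      rw [hS, mem_filter] at hd
      exact h d hd.2.2 hd.2.1 _ (by positivity)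
    filter_upwards [h1, loglog_tendsto.eventually_ge_atTop 0] with x hx hx0
    have h2 : ∑ p ∈ (Pr x).filter (fun p => ∃ d : ℕ, Even d ∧ 4 ≤ d ∧ d ≤ k ∧ Bd' d p),
        1 / (p : ℝ) ≤ ∑ d ∈ S, ∑ p ∈ (Pr x).filter (fun p => Bd' d p), 1 / (p : ℝ) := by
      simp_rw [Finset.sum_filter]
      rw [Finset.sum_comm]
      refine Finset.sum_le_sum fun p _ => ?_
      have hp0 : (0 : ℝ) ≤ 1 / (p : ℝ) := by positivity
      split_ifs with hd
      · obtain ⟨d, hd1, hd2, hd3, hd4⟩ := hd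
        have h3 : (if Bd' d p then 1 / (p : ℝ) else 0) ≤
            ∑ d ∈ S, (if Bd' d p then 1 / (p : ℝ) else 0) :=
          Finset.single_le_sum (f := fun d => if Bd' d p then 1 / (p : ℝ) else 0)
            (fun d _ => ite_nonneg hp0 le_rfl)
            (by rw [hS, mem_filter, mem_range]; exact ⟨by omega, hd1, hd2⟩)
        rw [if_pos hd4] at h3
        exact h3
      · exact Finset.sum_nonneg fun d _ => ite_nonneg hp0 le_rfl
    refine h2.trans ((Finset.sum_le_sum hx).trans ?_)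
    rw [Finset.sum_const, nsmul_eq_mul]
    have h3 : (#S : ℝ) ≤ (k : ℝ) + 1 := by
      have : #S ≤ k + 1 := (Finset.card_filter_le _ _).trans (by rw [Finset.card_range])
      exact_mod_cast this
    calc (#S : ℝ) * (1 / ((k : ℝ) + 1) / ((k : ℝ) + 1) * Real.log (Real.log x)) ≤
        ((k : ℝ) + 1) * (1 / ((k : ℝ) + 1) / ((k : ℝ) + 1) * Real.log (Real.log x)) :=
          mul_le_mul_of_nonneg_right h3 (by positivity)
      _ = _ := by field_simp)
  refine ⟨D, hD1, hD2, fun ε hε => ?_⟩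
  have h4 : ∀ᶠ x : ℕ in atTop, 1 / ((D x : ℝ) + 1) ≤ ε := by
    have h5 : Tendsto (fun x => (D x : ℝ)) atTop atTop := tendsto_natCast_atTop_atTop.comp hD2
    filter_upwards [h5.eventually_ge_atTop (1 / ε)] with x hx
    rw [div_le_iff₀ (by positivity)]
    rw [div_le_iff₀ hε] at hx
    linarith
  filter_upwards [hD3, h4, loglog_tendsto.eventually_ge_atTop 0] with x h5 h6 h7
  refine le_trans ?_ (h5.trans (mul_le_mul_of_nonneg_right h6 h7))
  refine Finset.sum_le_sum_of_subset_of_nonneg ?_ fun _ _ _ => by positivity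
  intro p hp
  rw [mem_filter] at hp ⊢
  obtain ⟨hp1, d, hd1, hd2, hd3, hd4⟩ := hp
  exact ⟨hp1, d, hd1, hd2, hd3.trans (hD1 (mem_Pr.mp hp1).1), hd4⟩

end Pool.Agent.K1H76.RG
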